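import Pool.Agent.H867.FT.Gen6
import Pool.Agent.H261.FT867ECD

/-!
# QBC: quadratic base change of a cubic ring

`S_QBC` of helper867.  The splitting is extended directly: for `R' = R ⊕ R s`, `s² = t₁ s + t₀`, and
a Cartier map `φ` of `R` put `ψ (r₀ + r₁ s) = φ r₀` and
`φ' z = ψ (s ^ q z) - t₁ ψ z + ψ z s`; this is a Cartier map of `R'` and `φ' f = s + r`, `r ∈ R`.
-/

set_option autoImplicit false

namespace Pool.Agent.H553.FT867QBC

open Pool.Agent.H867.FT IsLocalRing

/-- `A' = A ⊕ A s` with `s² = t₁ s + t₀`. -/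
structure Quad {A A' : Type} [CommRing A] [CommRing A'] (i : A →+* A') (s : A') (t₀ t₁ : A) :
    Prop where
  gen : ∀ z : A', ∃ u v : A, z = i u + i v * s
  ind : ∀ u v : A, i u + i v * s = 0 → u = 0 ∧ v = 0
  sq : s ^ 2 = i t₁ * s + i t₀

section Gen

variable {A A' : Type} [CommRing A] [CommRing A'] {i : A →+* A'} {s : A'} {t₀ t₁ : A}

theorem Quad.inj (h : Quad i s t₀ t₁) : Function.Injective i := by
  rw [injective_iff_map_eq_zero]
  intro u hu
  exact (h.ind u 0 (by rw [hu, map_zero, zero_mul, add_zero])).1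

theorem Quad.ext (h : Quad i s t₀ t₁) {u v u' v' : A}
    (he : i u + i v * s = i u' + i v' * s) : u = u' ∧ v = v' := by
  have h1 := h.ind (u - u') (v - v') (by
    rw [map_sub, map_sub]
    linear_combination he)
  exact ⟨sub_eq_zero.1 h1.1, sub_eq_zero.1 h1.2⟩

/-- extension of a splitting -/
theorem cartier_ext (h : Quad i s t₀ t₁) {q : ℕ}
    (hA : ∀ x y : A, (x + y) ^ q = x ^ q + y ^ q)
    (hA' : ∀ x y : A', (x + y) ^ q = x ^ q + y ^ q) (φ : A →+ A) (hφ : IsCartier q φ) (f : A) :
    ∃ φ' : A' →+ A', IsCartier q φ' ∧ ∃ r : A, φ' (i f) = i r + i (φ f) * s := by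
  choose u v huv using h.gen
  have hu : ∀ x y, u (x + y) = u x + u y := by
    intro x y
    refine (h.ext (v := v (x + y)) (v' := v x + v y) ?_).1
    rw [← huv (x + y), map_add, map_add]
    linear_combination huv x + huv y
  have hui : ∀ (a : A) (x : A'), u (i a * x) = a * u x := by
    intro a x
    refine (h.ext (v := v (i a * x)) (v' := a * v x) ?_).1
    rw [← huv (i a * x), map_mul, map_mul]
    linear_combination (i a) * huv x
  have hu1 : ∀ a : A, u (i a) = a := by
    intro a
    refine (h.ext (v := v (i a)) (v' := 0) ?_).1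
    rw [← huv (i a), map_zero, zero_mul, add_zero]
  obtain ⟨ψ, hψ⟩ : ∃ ψ : A' → A, ∀ z, ψ z = φ (u z) := ⟨fun z => φ (u z), fun z => rfl⟩
  have hψa : ∀ x y, ψ (x + y) = ψ x + ψ y := by
    intro x y
    rw [hψ, hψ, hψ, hu, map_add]
  have hψm : ∀ (a : A) (z : A'), ψ (i a ^ q * z) = a * ψ z := by
    intro a z
    rw [hψ, hψ, ← map_pow, hui, hφ]
  have hss : ∀ z, ψ (s ^ q * (s ^ q * z)) = t₁ * ψ (s ^ q * z) + t₀ * ψ z := by
    intro z
    rw [← mul_assoc, ← mul_pow, ← pow_two, h.sq, hA', add_mul, hψa, mul_pow, mul_assoc, hψm, hψm]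
  let φ' : A' →+ A' := AddMonoidHom.mk' (fun z => i (ψ (s ^ q * z) - t₁ * ψ z) + i (ψ z) * s) (by
    intro x y
    simp only [mul_add, hψa, map_add, map_sub, map_mul]
    ring)
  have hφ' : ∀ z, φ' z = i (ψ (s ^ q * z) - t₁ * ψ z) + i (ψ z) * s := fun z => rfl
  have c1 : ∀ (a : A) (z : A'), φ' (i a ^ q * z) = i a * φ' z := by
    intro a z
    rw [hφ', hφ', mul_left_comm, hψm, hψm, map_mul, map_sub, map_sub, map_mul, map_mul, map_mul,
      map_mul]
    ring
  have c2 : ∀ z : A', φ' (s ^ q * z) = s * φ' z := by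
    intro z
    rw [hφ', hφ', hss, map_sub, map_add, map_sub, map_mul, map_mul, map_mul]
    linear_combination (-i (ψ z)) * h.sq
  refine ⟨φ', ?_, ?_⟩
  · intro r z
    obtain ⟨a, b, rfl⟩ := h.gen r
    rw [hA', add_mul, map_add, mul_pow, mul_assoc, c1, c1, c2]
    ring
  · refine ⟨ψ (s ^ q * i f) - t₁ * ψ (i f), ?_⟩
    rw [hφ', hψ (i f), hu1]

/-- bases go up -/
theorem quad_basis {B B' : Type} [CommRing B] [CommRing B'] [Algebra A B] [Algebra A' B']
    {j : B →+* B'} {τ₀ τ₁ : B} (hA : Quad i s t₀ t₁) (hB : Quad j (algebraMap A' B' s) τ₀ τ₁)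
    (hij : ∀ a, j (algebraMap A B a) = algebraMap A' B' (i a)) {ι : Type} [Fintype ι]
    (b : Module.Basis ι A B) : ∃ b' : Module.Basis ι A' B', ∀ n, b' n = j (b n) := by
  classical
  have key : ∀ u v : ι → A, ∑ n, (i (u n) + i (v n) * s) • j (b n) =
      j (∑ n, u n • b n) + j (∑ n, v n • b n) * algebraMap A' B' s := by
    intro u v
    rw [map_sum, map_sum, Finset.sum_mul, ← Finset.sum_add_distrib]
    refine Finset.sum_congr rfl fun n _ => ?_
    rw [Algebra.smul_def, Algebra.smul_def, Algebra.smul_def, map_mul, map_mul, map_add, map_mul,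
      hij, hij]
    ring
  have hli : LinearIndependent A' fun n => j (b n) := by
    rw [Fintype.linearIndependent_iff]
    intro g hg
    choose u v huv using fun n => hA.gen (g n)
    have h1 : ∑ n, (i (u n) + i (v n) * s) • j (b n) = 0 := by
      rw [← hg]
      exact Finset.sum_congr rfl fun n _ => by rw [← huv]
    rw [key] at h1
    obtain ⟨h2, h3⟩ := hB.ind _ _ h1
    have h4 := Fintype.linearIndependent_iff.1 b.linearIndependent
    intro n
    rw [huv, h4 u h2 n, h4 v h3 n, map_zero, zero_mul, add_zero]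
  have hsp : ⊤ ≤ Submodule.span A' (Set.range fun n => j (b n)) := by
    intro z _
    obtain ⟨z₀, z₁, rfl⟩ := hB.gen z
    rw [← b.sum_repr z₀, ← b.sum_repr z₁, ← key]
    exact Submodule.sum_mem _ fun n _ => Submodule.smul_mem _ _ (Submodule.subset_span ⟨n, rfl⟩)
  exact ⟨Module.Basis.mk hli hsp, fun n => Module.Basis.mk_apply hli hsp n⟩

end Gen

section Fields

/-- quadratic extensions of fields -/
theorem quad_field {k k' : Type} [Field k] [Field k'] [Algebra k k']
    (h : Module.finrank k k' = 2) : ∃ (s : k') (t₀ t₁ : k), Quad (algebraMap k k') s t₀ t₁ := by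
  have hs : ∃ s : k', ∀ u : k, algebraMap k k' u ≠ s := by
    by_contra hcon
    push Not at hcon
    have h1 : Module.finrank k k' = 1 := by
      rw [← (LinearEquiv.ofBijective (Algebra.linearMap k k')
        ⟨(algebraMap k k').injective, hcon⟩).finrank_eq]
      exact Module.finrank_self k
    omega
  obtain ⟨s, hs⟩ := hs
  have hind : ∀ u v : k, algebraMap k k' u + algebraMap k k' v * s = 0 → u = 0 ∧ v = 0 := by
    intro u v huv
    have hv : v = 0 := by
      by_contra hv
      apply hs (-(u / v))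
      have hv' : algebraMap k k' v ≠ 0 := by
        rw [Ne, map_eq_zero]
        exact hv
      rw [map_neg, map_div₀, neg_eq_iff_eq_neg, div_eq_iff hv']
      linear_combination huv
    rw [hv, map_zero, zero_mul, add_zero, map_eq_zero] at huv
    exact ⟨huv, hv⟩
  have hli : LinearIndependent k (![1, s] : Fin 2 → k') := by
    rw [LinearIndependent.pair_iff]
    intro u v huv
    apply hind
    rw [Algebra.smul_def, Algebra.smul_def, mul_one] at huv
    exact huv
  have hspan := hli.span_eq_top_of_card_eq_finrank (by rw [h]; rfl)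
  have hgen : ∀ z : k', ∃ u v : k, z = algebraMap k k' u + algebraMap k k' v * s := by
    intro z
    have hz : z ∈ Submodule.span k (Set.range (![1, s] : Fin 2 → k')) := by
      rw [hspan]; trivial
    obtain ⟨l, hl⟩ := (Submodule.mem_span_range_iff_exists_fun k).1 hz
    refine ⟨l 0, l 1, ?_⟩
    rw [← hl, Fin.sum_univ_two]
    simp [Algebra.smul_def]
  obtain ⟨t₀, t₁, ht⟩ := hgen (s ^ 2)
  exact ⟨s, t₀, t₁, hgen, hind, by rw [ht]; ring⟩

/-- base change of power series -/
theorem quad_ps {k k' : Type} [Field k] [Field k'] [Algebra k k'] {s : k'} {t₀ t₁ : k}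
    (h : Quad (algebraMap k k') s t₀ t₁) (D : ℕ) :
    Quad (MvPowerSeries.map (σ := Fin D) (algebraMap k k')) (MvPowerSeries.C s)
      (MvPowerSeries.C t₀) (MvPowerSeries.C t₁) where
  gen := by
    intro z
    choose u v huv using h.gen
    refine ⟨fun n => u (MvPowerSeries.coeff n z), fun n => v (MvPowerSeries.coeff n z), ?_⟩
    ext n
    rw [map_add, MvPowerSeries.coeff_mul_C, MvPowerSeries.coeff_map, MvPowerSeries.coeff_map]
    exact huv _
  ind := by
    intro u v huv
    have h1 : ∀ n, MvPowerSeries.coeff n u = 0 ∧ MvPowerSeries.coeff n v = 0 := by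
      intro n
      apply h.ind
      have h2 := congrArg (MvPowerSeries.coeff n) huv
      rw [map_add, MvPowerSeries.coeff_mul_C, MvPowerSeries.coeff_map, MvPowerSeries.coeff_map,
        map_zero] at h2
      exact h2
    constructor
    · ext n
      rw [(h1 n).1, map_zero]
    · ext n
      rw [(h1 n).2, map_zero]
  sq := by
    rw [← map_pow, h.sq, map_add, map_mul, MvPowerSeries.map_C, MvPowerSeries.map_C]

/-- fraction fields -/
theorem quad_frac {P P' L L' : Type} [CommRing P] [IsDomain P] [CommRing P'] [IsDomain P']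
    [Field L] [Algebra P L] [IsFractionRing P L] [Field L'] [Algebra P' L'] [IsFractionRing P' L']
    {i : P →+* P'} {s : P'} {t₀ t₁ : P} (h : Quad i s t₀ t₁) (iL : L →+* L')
    (hi : ∀ g, iL (algebraMap P L g) = algebraMap P' L' (i g)) :
    Quad iL (algebraMap P' L' s) (algebraMap P L t₀) (algebraMap P L t₁) where
  gen := by
    intro z
    obtain ⟨n, m, hm, rfl⟩ := IsFractionRing.div_surjective (A := P') z
    obtain ⟨n₀, n₁, rfl⟩ := h.gen n
    obtain ⟨m₀, m₁, rfl⟩ := h.gen m
    have hm0 : i m₀ + i m₁ * s ≠ 0 := nonZeroDivisors.ne_zero hm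
    -- the conjugate
    have hc0 : i (m₀ + m₁ * t₁) + i (-m₁) * s ≠ 0 := by
      intro hc
      obtain ⟨h1, h2⟩ := h.ind _ _ hc
      rw [neg_eq_zero] at h2
      rw [h2, zero_mul, add_zero] at h1
      apply hm0
      rw [h1, h2, map_zero, zero_mul, add_zero]
    have hN : (i m₀ + i m₁ * s) * (i (m₀ + m₁ * t₁) + i (-m₁) * s) =
        i (m₀ ^ 2 + m₀ * m₁ * t₁ - m₁ ^ 2 * t₀) := by
      simp only [map_add, map_sub, map_mul, map_pow, map_neg]
      linear_combination (-(i m₁ ^ 2)) * h.sq
    have hN0 : i (m₀ ^ 2 + m₀ * m₁ * t₁ - m₁ ^ 2 * t₀) ≠ 0 := by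
      rw [← hN]
      exact mul_ne_zero hm0 hc0
    obtain ⟨w₀, w₁, hw⟩ := h.gen ((i n₀ + i n₁ * s) * (i (m₀ + m₁ * t₁) + i (-m₁) * s))
    obtain ⟨N, hNd⟩ : ∃ N, N = m₀ ^ 2 + m₀ * m₁ * t₁ - m₁ ^ 2 * t₀ := ⟨_, rfl⟩
    rw [← hNd] at hN hN0
    have hN1 : algebraMap P' L' (i N) ≠ 0 := by
      intro h0
      exact hN0 (IsFractionRing.injective P' L' (by rw [h0, map_zero]))
    have hm1 : algebraMap P' L' (i m₀ + i m₁ * s) ≠ 0 := by
      intro h0
      exact hm0 (IsFractionRing.injective P' L' (by rw [h0, map_zero]))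
    refine ⟨algebraMap P L w₀ / algebraMap P L N, algebraMap P L w₁ / algebraMap P L N, ?_⟩
    rw [map_div₀, map_div₀, hi, hi, hi, div_eq_iff hm1, div_mul_eq_mul_div, ← add_div,
      div_mul_eq_mul_div, eq_div_iff hN1, ← map_mul, ← map_mul, ← map_add, ← map_mul, ← hw, ← hN]
    congr 1
    ring
  ind := by
    have hs : ∀ l : L, iL l ≠ algebraMap P' L' s := by
      intro l hl
      obtain ⟨n, m, hm, rfl⟩ := IsFractionRing.div_surjective (A := P) l
      have hm0 : m ≠ 0 := nonZeroDivisors.ne_zero hm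
      have hm1 : algebraMap P' L' (i m) ≠ 0 := by
        intro h0
        apply hm0
        apply h.inj
        rw [map_zero]
        exact IsFractionRing.injective P' L' (by rw [h0, map_zero])
      rw [map_div₀, hi, hi, div_eq_iff hm1, ← map_mul] at hl
      have h1 := IsFractionRing.injective P' L' hl
      have h2 := (h.ind n (-m) (by rw [h1, map_neg]; ring)).2
      exact hm0 (neg_eq_zero.1 h2)
    intro u v huv
    have hv : v = 0 := by
      by_contra hv
      apply hs (-(u / v))
      have hv' : iL v ≠ 0 := by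
        rw [Ne, map_eq_zero]
        exact hv
      rw [map_neg, map_div₀, neg_eq_iff_eq_neg, div_eq_iff hv']
      linear_combination huv
    rw [hv, map_zero, zero_mul, add_zero, map_eq_zero] at huv
    exact ⟨huv, hv⟩
  sq := by
    rw [← map_pow, h.sq, hi, hi, ← map_mul, ← map_add]

/-- a quadratic and a cubic extension -/
theorem quad_cubic {L L' K : Type} [Field L] [Field L'] [Field K] [Algebra L K]
    [FiniteDimensional L K] [Algebra.IsSeparable L K] {iL : L →+* L'} {s : L'} {t₀ t₁ : L}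
    (h : Quad iL s t₀ t₁) (h3 : Module.finrank L K = 3) :
    ∃ (K' : Type) (_ : Field K') (_ : Algebra L' K') (jK : K →+* K'),
      (∀ l, jK (algebraMap L K l) = algebraMap L' K' (iL l)) ∧
      Quad jK (algebraMap L' K' s) (algebraMap L K t₀) (algebraMap L K t₁) ∧
      FiniteDimensional L' K' ∧ Algebra.IsSeparable L' K' ∧ Module.finrank L' K' = 3 := by
  classical
  letI : Algebra L L' := iL.toAlgebra
  have hiL : ∀ l, algebraMap L L' l = iL l := fun l => rfl
  have hfin : Module.Finite L L' := by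
    refine ⟨⟨{1, s}, ?_⟩⟩
    rw [eq_top_iff]
    intro z _
    obtain ⟨u, v, rfl⟩ := h.gen z
    rw [Finset.coe_pair, Submodule.mem_span_pair]
    refine ⟨u, v, ?_⟩
    rw [Algebra.smul_def, Algebra.smul_def, hiL, hiL, mul_one]
  have halg : Algebra.IsAlgebraic L L' := inferInstance
  obtain ⟨E, _, _, _, j, hj, hEalg⟩ : ∃ (E : Type) (_ : Field E) (_ : Algebra K E) (_ : Algebra L E)
      (j : L' →+* E), (∀ l, j (iL l) = algebraMap K E (algebraMap L K l)) ∧
      Algebra.IsAlgebraic K E := by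
    let j : L' →ₐ[L] AlgebraicClosure K := IsAlgClosed.lift
    refine ⟨AlgebraicClosure K, inferInstance, inferInstance, inferInstance, j.toRingHom, ?_,
      inferInstance⟩
    intro l
    rw [← hiL]
    exact (j.commutes l).trans (IsScalarTower.algebraMap_apply L K (AlgebraicClosure K) l)
  have hjinj : Function.Injective j := j.injective
  have hKinj : Function.Injective (algebraMap K E) := (algebraMap K E).injective
  -- `s` is not in `K`
  have hs : ∀ z : K, algebraMap K E z ≠ j s := by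
    intro z hz
    have hz2 : z ^ 2 = algebraMap L K t₁ * z + algebraMap L K t₀ := by
      apply hKinj
      rw [map_pow, map_add, map_mul, hz, ← hj, ← hj, ← map_pow, ← map_mul, ← map_add, h.sq]
    have hd : minpoly L z ∣ Polynomial.X ^ 2 - Polynomial.C t₁ * Polynomial.X -
        Polynomial.C t₀ := by
      apply minpoly.dvd
      simp only [map_sub, map_pow, map_mul, Polynomial.aeval_X, Polynomial.aeval_C]
      rw [hz2]
      ring
    have hdeg : (Polynomial.X ^ 2 - Polynomial.C t₁ * Polynomial.X -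
        Polynomial.C t₀ : Polynomial L).natDegree = 2 := by
      compute_degree!
    have hle : (minpoly L z).natDegree ≤ 2 := by
      rw [← hdeg]
      apply Polynomial.natDegree_le_of_dvd hd
      intro h0
      rw [h0, Polynomial.natDegree_zero] at hdeg
      omega
    have hdv : (minpoly L z).natDegree ∣ 3 := by
      rw [← h3]
      exact minpoly.degree_dvd (Algebra.IsIntegral.isIntegral z)
    have h1 : (minpoly L z).natDegree = 1 := by
      rcases (Nat.dvd_prime Nat.prime_three).1 hdv with h1 | h1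
      · exact h1
      · omega
    obtain ⟨z₀, hz₀⟩ := minpoly.natDegree_eq_one_iff.1 h1
    rw [← hz₀, ← hj] at hz
    have h4 := (h.ind z₀ (-1) (by rw [hjinj hz, map_neg, map_one]; ring)).2
    exact one_ne_zero (neg_eq_zero.1 h4)
  have hsq : j s ^ 2 = algebraMap K E (algebraMap L K t₁) * j s +
      algebraMap K E (algebraMap L K t₀) := by
    rw [← hj, ← hj, ← map_pow, ← map_mul, ← map_add, h.sq]
  let F : IntermediateField K E := IntermediateField.adjoin K {j s}
  have hsF : j s ∈ F := IntermediateField.subset_adjoin K _ rfl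
  have hKF : ∀ z : K, algebraMap K E z ∈ F := fun z => F.algebraMap_mem z
  have hF : ∀ z ∈ F, ∃ z₀ z₁ : K, z = algebraMap K E z₀ + algebraMap K E z₁ * j s := by
    intro z hz
    have hz1 : z ∈ Algebra.adjoin K {j s} := by
      rw [← IntermediateField.adjoin_toSubalgebra]
      exact hz
    clear hz
    induction hz1 using Algebra.adjoin_induction with
    | mem x hx =>
      rw [Set.mem_singleton_iff] at hx
      exact ⟨0, 1, by rw [hx, map_zero, map_one, one_mul, zero_add]⟩
    | algebraMap r => exact ⟨r, 0, by rw [map_zero, zero_mul, add_zero]⟩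
    | add x y _ _ hx hy =>
      obtain ⟨x₀, x₁, rfl⟩ := hx
      obtain ⟨y₀, y₁, rfl⟩ := hy
      exact ⟨x₀ + y₀, x₁ + y₁, by rw [map_add, map_add]; ring⟩
    | mul x y _ _ hx hy =>
      obtain ⟨x₀, x₁, rfl⟩ := hx
      obtain ⟨y₀, y₁, rfl⟩ := hy
      refine ⟨x₀ * y₀ + x₁ * y₁ * algebraMap L K t₀,
        x₀ * y₁ + x₁ * y₀ + x₁ * y₁ * algebraMap L K t₁, ?_⟩
      simp only [map_add, map_mul]
      linear_combination (algebraMap K E x₁ * algebraMap K E y₁) * hsq
  let jL : L' →+* F := j.codRestrict F (fun z => by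
    obtain ⟨u, v, rfl⟩ := h.gen z
    rw [map_add, map_mul, hj, hj]
    exact F.add_mem (hKF _) (F.mul_mem (hKF _) hsF))
  letI : Algebra L' F := jL.toAlgebra
  have hjL : ∀ l, ((algebraMap L' F l : F) : E) = j l := fun l => rfl
  have hc : ∀ l, algebraMap K F (algebraMap L K l) = algebraMap L' F (iL l) := by
    intro l
    apply Subtype.ext
    rw [hjL, hj]
    rfl
  have hQ : Quad (algebraMap K F) (algebraMap L' F s) (algebraMap L K t₀) (algebraMap L K t₁) := by
    refine ⟨?_, ?_, ?_⟩
    · rintro ⟨z, hz⟩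
      obtain ⟨z₀, z₁, hz'⟩ := hF z hz
      exact ⟨z₀, z₁, Subtype.ext hz'⟩
    · intro u v huv
      have h1 : algebraMap K E u + algebraMap K E v * j s = 0 := congrArg Subtype.val huv
      have hv : v = 0 := by
        by_contra hv
        apply hs (-(u / v))
        have hv' : algebraMap K E v ≠ 0 := by
          rw [Ne, map_eq_zero]
          exact hv
        rw [map_neg, map_div₀, neg_eq_iff_eq_neg, div_eq_iff hv']
        linear_combination h1
      rw [hv, map_zero, zero_mul, add_zero, map_eq_zero] at h1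
      exact ⟨h1, hv⟩
    · exact Subtype.ext hsq
  obtain ⟨b', hb'⟩ := quad_basis h hQ hc (Module.finBasisOfFinrankEq L K h3)
  have hfd : FiniteDimensional L' F := Module.Finite.of_basis b'
  refine ⟨F, inferInstance, inferInstance, algebraMap K F, hc, hQ, hfd, ⟨?_⟩, ?_⟩
  · intro z
    have hK : ∀ z : K, IsSeparable L' (algebraMap K F z) := by
      intro z
      have h5 : (minpoly L z).Separable := Algebra.IsSeparable.isSeparable L z
      have h6 : minpoly L' (algebraMap K F z) ∣ (minpoly L z).map iL := by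
        apply minpoly.dvd
        have h7 : (algebraMap L' F).comp iL = (algebraMap K F).comp (algebraMap L K) :=
          RingHom.ext fun l => (hc l).symm
        rw [Polynomial.aeval_def, Polynomial.eval₂_map, h7, ← Polynomial.hom_eval₂,
          ← Polynomial.aeval_def, minpoly.aeval, map_zero]
      exact (h5.map).of_dvd h6
    obtain ⟨z₀, z₁, rfl⟩ := hQ.gen z
    exact Field.isSeparable_add (hK _) (Field.isSeparable_mul (hK _) (isSeparable_algebraMap _))
  · rw [Module.finrank_eq_card_basis b', Fintype.card_fin]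

end Fields

section Ring

/-- the subring `R + R s` -/
def QR {R P' K' : Type} [CommRing R] [CommRing P'] [Field K'] [Algebra P' K'] (ι : R →+* K')
    (s : K') (t₀ t₁ : R) (hs : s ^ 2 = ι t₁ * s + ι t₀)
    (hP : ∀ g : P', ∃ r₀ r₁ : R, algebraMap P' K' g = ι r₀ + ι r₁ * s) : Subalgebra P' K' where
  carrier := {z | ∃ r₀ r₁ : R, z = ι r₀ + ι r₁ * s}
  mul_mem' := by
    rintro _ _ ⟨x₀, x₁, rfl⟩ ⟨y₀, y₁, rfl⟩
    refine ⟨x₀ * y₀ + x₁ * y₁ * t₀, x₀ * y₁ + x₁ * y₀ + x₁ * y₁ * t₁, ?_⟩
    simp only [map_add, map_mul]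
    linear_combination (ι x₁ * ι y₁) * hs
  add_mem' := by
    rintro _ _ ⟨x₀, x₁, rfl⟩ ⟨y₀, y₁, rfl⟩
    exact ⟨x₀ + y₀, x₁ + y₁, by rw [map_add, map_add]; ring⟩
  algebraMap_mem' := hP

/-- locality (the argument is that of `S_EXL`, by helper790) -/
theorem local_of {P R : Type} [CommRing P] [IsLocalRing P] [CommRing R] [IsDomain R]
    [Algebra P R] [Module.Finite P R] {ω θ : R} {a b c d : P} (ha : a ∈ maximalIdeal P)
    (hb : b ∈ maximalIdeal P) (hc : c ∈ maximalIdeal P) (hd : d ∈ maximalIdeal P)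
    (h1 : ω * ω = -(algebraMap P R a * algebraMap P R c) - algebraMap P R b * ω +
      algebraMap P R a * θ)
    (h3 : θ * θ = -(algebraMap P R b * algebraMap P R d) - algebraMap P R d * ω +
      algebraMap P R c * θ)
    (hR : ∀ r : R, ∃ r₀ r₁ r₂ : P, r = algebraMap P R r₀ + r₁ • ω + r₂ • θ) :
    ∃ _ : IsLocalRing R, (∀ g ∈ maximalIdeal P, algebraMap P R g ∈ maximalIdeal R) ∧
      ω ∈ maximalIdeal R ∧ θ ∈ maximalIdeal R := by
  have key : ∀ M : Ideal R, M.IsMaximal → (∀ g ∈ maximalIdeal P, algebraMap P R g ∈ M) ∧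
      ω ∈ M ∧ θ ∈ M ∧ ∀ r₀ r₁ r₂ : P, algebraMap P R r₀ + r₁ • ω + r₂ • θ ∈ M ↔
        r₀ ∈ maximalIdeal P := by
    intro M hM
    have hcm : (M.comap (algebraMap P R)).IsMaximal :=
      Ideal.isMaximal_comap_of_isIntegral_of_isMaximal M
    have hce : M.comap (algebraMap P R) = maximalIdeal P := IsLocalRing.eq_maximalIdeal hcm
    have hal : ∀ u : P, algebraMap P R u ∈ M ↔ u ∈ maximalIdeal P := by
      intro u
      rw [← hce, Ideal.mem_comap]
    have hω : ω ∈ M := by
      have h4 : ω * ω ∈ M := by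
        rw [h1]
        exact M.add_mem (M.sub_mem (M.neg_mem (M.mul_mem_right _ ((hal a).2 ha)))
          (M.mul_mem_right _ ((hal b).2 hb))) (M.mul_mem_right _ ((hal a).2 ha))
      exact (hM.isPrime.mem_or_mem h4).elim id id
    have hθ : θ ∈ M := by
      have h4 : θ * θ ∈ M := by
        rw [h3]
        exact M.add_mem (M.sub_mem (M.neg_mem (M.mul_mem_right _ ((hal b).2 hb)))
          (M.mul_mem_right _ ((hal d).2 hd))) (M.mul_mem_right _ ((hal c).2 hc))
      exact (hM.isPrime.mem_or_mem h4).elim id id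
    refine ⟨fun g hg => (hal g).2 hg, hω, hθ, fun r₀ r₁ r₂ => ?_⟩
    rw [← hal, Algebra.smul_def, Algebra.smul_def]
    constructor
    · intro h
      have e : algebraMap P R r₀ = (algebraMap P R r₀ + algebraMap P R r₁ * ω +
          algebraMap P R r₂ * θ) - algebraMap P R r₁ * ω - algebraMap P R r₂ * θ := by ring
      rw [e]
      exact M.sub_mem (M.sub_mem h (M.mul_mem_left _ hω)) (M.mul_mem_left _ hθ)
    · intro h
      exact M.add_mem (M.add_mem h (M.mul_mem_left _ hω)) (M.mul_mem_left _ hθ)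
  have hloc : IsLocalRing R := by
    apply IsLocalRing.of_unique_max_ideal
    obtain ⟨M, hM⟩ := Ideal.exists_maximal R
    refine ⟨M, hM, fun M' hM' => ?_⟩
    ext r
    obtain ⟨r₀, r₁, r₂, rfl⟩ := hR r
    rw [(key M hM).2.2.2, (key M' hM').2.2.2]
  obtain ⟨k1, k2, k3, _⟩ := key (maximalIdeal R) (maximalIdeal.isMaximal R)
  exact ⟨hloc, k1, k2, k3⟩

end Ring

theorem qbc_gen {P P' R L K L' : Type} [CommRing P] [IsDomain P] [IsLocalRing P] [CommRing P']
    [IsDomain P'] [IsLocalRing P'] [CommRing R] [IsDomain R] [IsLocalRing R] [Algebra P R]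
    [Module.Finite P R] [Module.Free P R] [Field L] [Algebra P L] [IsFractionRing P L] [Field K]
    [Algebra R K] [IsFractionRing R K] [Algebra P K] [IsScalarTower P R K] [Algebra L K]
    [IsScalarTower P L K] [FiniteDimensional L K] [Algebra.IsSeparable L K]
    [Field L'] [Algebra P' L'] [IsFractionRing P' L']
    (p e : ℕ) [Fact p.Prime] [CharP R p]
    (i : P →+* P') (s : P') (t₀ t₁ : P) (hq : Quad i s t₀ t₁)
    (hm : ∀ g ∈ maximalIdeal P, i g ∈ maximalIdeal P')
    (hu : ∀ g : P, IsUnit (i g + s))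
    (C : Submodule R K) (a b c d : P) (x y₀ : K) (ω θ f : R) (N : ℕ)
    (ha : a ∈ maximalIdeal P) (hb : b ∈ maximalIdeal P) (hc : c ∈ maximalIdeal P)
    (hd : d ∈ maximalIdeal P) (hcub : IsCub L C a b c d x y₀ ω θ)
    (hf : f ∈ maximalIdeal R ^ N) (hsplit : FSplits R (p ^ e) f) :
    ∃ (R' : Type) (_ : CommRing R') (_ : IsDomain R') (_ : IsLocalRing R') (_ : Algebra P' R')
      (_ : Module.Finite P' R') (_ : Module.Free P' R') (K' : Type) (_ : Field K')
      (_ : Algebra R' K') (_ : IsFractionRing R' K') (_ : Algebra P' K')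
      (_ : IsScalarTower P' R' K') (_ : Algebra L' K')
      (_ : IsScalarTower P' L' K') (_ : FiniteDimensional L' K')
      (_ : Algebra.IsSeparable L' K') (C' : Submodule R' K') (x' y₀' : K') (ω' θ' f' : R'),
      (∀ y : K', y ∈ C' ↔ ∀ r : R', ∃ g : P', algebraMap P' L' g =
          Algebra.trace L' K' (y * algebraMap R' K' r)) ∧
      IsCub L' C' (i a) (i b) (i c) (i d) x' y₀' ω' θ' ∧
      f' ∈ maximalIdeal R' ^ N ∧ FSplits R' (p ^ e) f' := by
  have hPL : Function.Injective (algebraMap P L) := IsFractionRing.injective P L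
  have hPL' : Function.Injective (algebraMap P' L') := IsFractionRing.injective P' L'
  have hRK : Function.Injective (algebraMap R K) := IsFractionRing.injective R K
  -- `L'` over `L`
  have hinj : Function.Injective ((algebraMap P' L').comp i) := hPL'.comp hq.inj
  obtain ⟨iL, hiL⟩ : ∃ iL : L →+* L', ∀ g, iL (algebraMap P L g) = algebraMap P' L' (i g) :=
    ⟨IsFractionRing.lift hinj, fun g => IsFractionRing.lift_algebraMap hinj g⟩
  have hqL := quad_frac hq iL hiL
  -- the basis of `R` over `P`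
  have hPRK : ∀ g : P, algebraMap R K (algebraMap P R g) = algebraMap P K g := fun g =>
    (IsScalarTower.algebraMap_apply P R K g).symm
  have hPLK : ∀ g : P, algebraMap L K (algebraMap P L g) = algebraMap P K g := fun g =>
    (IsScalarTower.algebraMap_apply P L K g).symm
  have haL : algebraMap P L a ≠ 0 := by
    intro h0
    exact hcub.ha (hPL (by rw [h0, map_zero]))
  obtain ⟨bs, hb0, hb1, hb2⟩ : ∃ bs : Module.Basis (Fin 3) P R, bs 0 = 1 ∧ bs 1 = ω ∧
      bs 2 = θ := by
    have hli : LinearIndependent P (![1, ω, θ] : Fin 3 → R) := by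
      rw [Fintype.linearIndependent_iff]
      intro g hg
      rw [Fin.sum_univ_three] at hg
      simp only [Matrix.cons_val_zero, Matrix.cons_val_one, Matrix.cons_val_two, Matrix.head_cons,
        Matrix.tail_cons, Algebra.smul_def, mul_one] at hg
      have h1 := congrArg (algebraMap R K) hg
      rw [map_add, map_add, map_mul, map_mul, hPRK, hPRK, hPRK, hcub.hω, hcub.hθ, map_zero] at h1
      obtain ⟨h4, h5, h6⟩ := hcub.ind (algebraMap P L (g 0 + g 2 * c))
        (algebraMap P L (g 1 * a + g 2 * b)) (algebraMap P L (g 2 * a)) (by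
          rw [hPLK, hPLK, hPLK]
          simp only [map_add, map_mul]
          linear_combination h1)
      have h6' : g 2 * a = 0 := hPL (by rw [h6, map_zero])
      have h7 : g 2 = 0 := (mul_eq_zero.1 h6').resolve_right hcub.ha
      have h5' : g 1 * a + g 2 * b = 0 := hPL (by rw [h5, map_zero])
      rw [h7, zero_mul, add_zero] at h5'
      have h8 : g 1 = 0 := (mul_eq_zero.1 h5').resolve_right hcub.ha
      have h4' : g 0 + g 2 * c = 0 := hPL (by rw [h4, map_zero])
      rw [h7, zero_mul, add_zero] at h4'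
      intro n
      fin_cases n
      · exact h4'
      · exact h8
      · exact h7
    have hsp : ⊤ ≤ Submodule.span P (Set.range (![1, ω, θ] : Fin 3 → R)) := by
      intro z _
      obtain ⟨r₀, r₁, r₂, rfl⟩ := hcub.gen z
      rw [Algebra.algebraMap_eq_smul_one]
      refine Submodule.add_mem _ (Submodule.add_mem _ ?_ ?_) ?_
      · exact Submodule.smul_mem _ _ (Submodule.subset_span ⟨0, rfl⟩)
      · exact Submodule.smul_mem _ _ (Submodule.subset_span ⟨1, rfl⟩)
      · exact Submodule.smul_mem _ _ (Submodule.subset_span ⟨2, rfl⟩)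
    exact ⟨Module.Basis.mk hli hsp, by rw [Module.Basis.mk_apply]; rfl,
      by rw [Module.Basis.mk_apply]; rfl, by rw [Module.Basis.mk_apply]; rfl⟩
  have h3 : Module.finrank L K = 3 := by
    rw [IsFractionRing.finrank_eq P L R K, Module.finrank_eq_card_basis bs, Fintype.card_fin]
  -- the field `K'`
  obtain ⟨K', _, _, jK, hjK, hqK, hfd, hsep, h3'⟩ := quad_cubic hqL h3
  letI : Algebra P' K' := ((algebraMap L' K').comp (algebraMap P' L')).toAlgebra
  haveI : IsScalarTower P' L' K' := IsScalarTower.of_algebraMap_eq fun _ => rfl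
  have hPLK' : ∀ g : P', algebraMap L' K' (algebraMap P' L' g) = algebraMap P' K' g :=
    fun g => rfl
  obtain ⟨ι, hι⟩ : ∃ ι : R →+* K', ∀ r, ι r = jK (algebraMap R K r) :=
    ⟨jK.comp (algebraMap R K), fun r => rfl⟩
  have hT : ∀ g : P, ι (algebraMap P R g) = algebraMap P' K' (i g) := by
    intro g
    rw [hι, hPRK, ← hPLK, hjK, hiL, hPLK']
  have hs : (algebraMap P' K' s) ^ 2 = ι (algebraMap P R t₁) * algebraMap P' K' s +
      ι (algebraMap P R t₀) := by
    rw [hT, hT, ← map_pow, ← map_mul, ← map_add, hq.sq]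
  have hP : ∀ g : P', ∃ r₀ r₁ : R, algebraMap P' K' g = ι r₀ + ι r₁ * algebraMap P' K' s := by
    intro g
    obtain ⟨u, v, rfl⟩ := hq.gen g
    exact ⟨algebraMap P R u, algebraMap P R v, by rw [map_add, map_mul, hT, hT]⟩
  let S : Subalgebra P' K' := QR ι (algebraMap P' K' s) (algebraMap P R t₀) (algebraMap P R t₁)
    hs hP
  let iR : R →+* S := ι.codRestrict S (fun r => ⟨r, 0, by rw [map_zero, zero_mul, add_zero]⟩)
  have hiR : ∀ r, algebraMap S K' (iR r) = ι r := fun r => rfl
  have hPSK : ∀ g : P', algebraMap S K' (algebraMap P' S g) = algebraMap P' K' g := fun g => rfl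
  have hSK : Function.Injective (algebraMap S K') := Subtype.val_injective
  have hqR : Quad iR (algebraMap P' S s) (algebraMap P R t₀) (algebraMap P R t₁) := by
    refine ⟨?_, ?_, ?_⟩
    · rintro ⟨z, r₀, r₁, hz⟩
      exact ⟨r₀, r₁, Subtype.ext hz⟩
    · intro u v huv
      have h1 := congrArg (algebraMap S K') huv
      rw [map_add, map_mul, hiR, hiR, hPSK, hι, hι, map_zero] at h1
      obtain ⟨h4, h5⟩ := hqK.ind _ _ h1
      exact ⟨hRK (by rw [h4, map_zero]), hRK (by rw [h5, map_zero])⟩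
    · exact Subtype.ext hs
  have hTR : ∀ g, iR (algebraMap P R g) = algebraMap P' S (i g) := fun g => Subtype.ext (hT g)
  obtain ⟨b', hb'⟩ := quad_basis hq hqR hTR bs
  have hfin : Module.Finite P' S := Module.Finite.of_basis b'
  have hfree : Module.Free P' S := Module.Free.of_basis b'
  have hfrac : IsFractionRing S K' := by
    haveI : FaithfulSMul S K' := (faithfulSMul_iff_algebraMap_injective S K').2 hSK
    apply IsFractionRing.of_field
    intro z
    obtain ⟨z₀, z₁, rfl⟩ := hqK.gen z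
    obtain ⟨r₀, m₀, hm₀, rfl⟩ := IsFractionRing.div_surjective (A := R) z₀
    obtain ⟨r₁, m₁, hm₁, rfl⟩ := IsFractionRing.div_surjective (A := R) z₁
    have hn : ∀ m : R, m ∈ nonZeroDivisors R → ι m ≠ 0 := by
      intro m hm0 h0
      apply nonZeroDivisors.ne_zero hm0
      apply hqR.inj
      apply hSK
      rw [hiR, h0, map_zero, map_zero]
    refine ⟨iR (r₀ * m₁) + iR (r₁ * m₀) * algebraMap P' S s, iR (m₀ * m₁), ?_⟩
    rw [eq_div_iff (by rw [hiR, map_mul]; exact mul_ne_zero (hn _ hm₀) (hn _ hm₁))]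
    simp only [map_add, map_mul, map_div₀, hiR, hPSK, ← hι, hPLK']
    have h1 := hn _ hm₀
    have h2 := hn _ hm₁
    field_simp
  have hgen : ∀ r : S, ∃ r₀ r₁ r₂ : P', r = algebraMap P' S r₀ + r₁ • iR ω + r₂ • iR θ := by
    intro r
    obtain ⟨u, v, rfl⟩ := hqR.gen r
    obtain ⟨u₀, u₁, u₂, rfl⟩ := hcub.gen u
    obtain ⟨v₀, v₁, v₂, rfl⟩ := hcub.gen v
    refine ⟨i u₀ + i v₀ * s, i u₁ + i v₁ * s, i u₂ + i v₂ * s, ?_⟩
    simp only [Algebra.smul_def, map_add, map_mul, hTR]
    ring
  have hind : ∀ l₀ l₁ l₂ : L', algebraMap L' K' l₀ + algebraMap L' K' l₁ * jK x +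
      algebraMap L' K' l₂ * jK x ^ 2 = 0 → l₀ = 0 ∧ l₁ = 0 ∧ l₂ = 0 := by
    intro l₀ l₁ l₂ h
    obtain ⟨u₀, v₀, rfl⟩ := hqL.gen l₀
    obtain ⟨u₁, v₁, rfl⟩ := hqL.gen l₁
    obtain ⟨u₂, v₂, rfl⟩ := hqL.gen l₂
    obtain ⟨h4, h5⟩ := hqK.ind
      (algebraMap L K u₀ + algebraMap L K u₁ * x + algebraMap L K u₂ * x ^ 2)
      (algebraMap L K v₀ + algebraMap L K v₁ * x + algebraMap L K v₂ * x ^ 2) (by
        rw [← h]
        simp only [map_add, map_mul, map_pow, hjK]
        ring)
    obtain ⟨k0, k1, k2⟩ := hcub.ind _ _ _ h4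
    obtain ⟨n0, n1, n2⟩ := hcub.ind _ _ _ h5
    rw [k0, k1, k2, n0, n1, n2, map_zero, zero_mul, add_zero]
    exact ⟨rfl, rfl, rfl⟩
  have hjP : ∀ g : P, jK (algebraMap P K g) = algebraMap P' K' (i g) := by
    intro g
    rw [← hPRK, ← hι, hT]
  have hroot : algebraMap P' K' (i a) * jK x ^ 3 + algebraMap P' K' (i b) * jK x ^ 2 +
      algebraMap P' K' (i c) * jK x + algebraMap P' K' (i d) = 0 := by
    rw [← hjP, ← hjP, ← hjP, ← hjP, ← map_pow, ← map_pow, ← map_mul, ← map_mul, ← map_mul,
      ← map_add, ← map_add, ← map_add, hcub.root, map_zero]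
  have hω : algebraMap S K' (iR ω) = algebraMap P' K' (i a) * jK x := by
    rw [hiR, hι, hcub.hω, map_mul, hjP]
  have hθ : algebraMap S K' (iR θ) = algebraMap P' K' (i a) * jK x ^ 2 +
      algebraMap P' K' (i b) * jK x + algebraMap P' K' (i c) := by
    rw [hiR, hι, hcub.hθ, map_add, map_add, map_mul, map_mul, map_pow, hjP, hjP, hjP]
  have ha0 : i a ≠ 0 := by
    intro h0
    exact hcub.ha (hq.inj (by rw [h0, map_zero]))
  obtain ⟨C', y₀', hy, hcub', hC', -⟩ := Pool.Agent.H261.FT867ECD.ecd P' S L' K' (i a) (i b) (i c)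
    (i d) (jK x) (iR ω) (iR θ) ha0 h3' hroot hω hθ hgen hind
  -- locality
  have t1 : ω * ω = -(algebraMap P R a * algebraMap P R c) - algebraMap P R b * ω +
      algebraMap P R a * θ := by
    apply hRK
    simp only [map_mul, map_add, map_sub, map_neg, hPRK, hcub.hω, hcub.hθ]
    ring
  have t3 : θ * θ = -(algebraMap P R b * algebraMap P R d) - algebraMap P R d * ω +
      algebraMap P R c * θ := by
    apply hRK
    simp only [map_mul, map_add, map_sub, map_neg, hPRK, hcub.hω, hcub.hθ]
    linear_combination (algebraMap P K a * x + algebraMap P K b) * hcub.root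
  have t1' : iR ω * iR ω = -(algebraMap P' S (i a) * algebraMap P' S (i c)) -
      algebraMap P' S (i b) * iR ω + algebraMap P' S (i a) * iR θ := by
    rw [← map_mul, t1, map_add, map_sub, map_neg, map_mul, map_mul, map_mul, hTR, hTR, hTR]
  have t3' : iR θ * iR θ = -(algebraMap P' S (i b) * algebraMap P' S (i d)) -
      algebraMap P' S (i d) * iR ω + algebraMap P' S (i c) * iR θ := by
    rw [← map_mul, t3, map_add, map_sub, map_neg, map_mul, map_mul, map_mul, hTR, hTR, hTR]
  obtain ⟨_, k1, k2, k3⟩ := local_of ha hb hc hd t1 t3 hcub.gen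
  obtain ⟨hloc, l1, l2, l3⟩ := local_of (hm a ha) (hm b hb) (hm c hc) (hm d hd) t1' t3' hgen
  have hmR : ∀ r ∈ maximalIdeal R, iR r ∈ maximalIdeal S := by
    intro r hr
    obtain ⟨r₀, r₁, r₂, rfl⟩ := hcub.gen r
    have e1 : algebraMap P R r₀ ∈ maximalIdeal R := by
      have e : algebraMap P R r₀ = (algebraMap P R r₀ + r₁ • ω + r₂ • θ) -
          algebraMap P R r₁ * ω - algebraMap P R r₂ * θ := by
        rw [Algebra.smul_def, Algebra.smul_def]
        ring
      rw [e]
      exact Ideal.sub_mem _ (Ideal.sub_mem _ hr (Ideal.mul_mem_left _ _ k2))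
        (Ideal.mul_mem_left _ _ k3)
    have e2 : r₀ ∈ maximalIdeal P := by
      rw [IsLocalRing.mem_maximalIdeal, mem_nonunits_iff]
      intro h0
      exact (IsLocalRing.mem_maximalIdeal _).1 e1 (h0.map (algebraMap P R))
    rw [Algebra.smul_def, Algebra.smul_def, map_add, map_add, map_mul, map_mul, hTR]
    exact Ideal.add_mem _ (Ideal.add_mem _ (l1 _ (hm _ e2)) (Ideal.mul_mem_left _ _ l2))
      (Ideal.mul_mem_left _ _ l3)
  have hf' : iR f ∈ maximalIdeal S ^ N := by
    have e1 : (maximalIdeal R).map iR ≤ maximalIdeal S := by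
      rw [Ideal.map_le_iff_le_comap]
      exact fun r hr => hmR r hr
    have e2 : iR f ∈ (maximalIdeal R ^ N).map iR := Ideal.mem_map_of_mem _ hf
    rw [Ideal.map_pow] at e2
    exact Ideal.pow_right_mono e1 N e2
  -- the splitting
  have hsp : FSplits S (p ^ e) (iR f) := by
    obtain ⟨φ, hφ, hφf⟩ := hsplit
    haveI : CharP S p := (RingHom.charP_iff iR hqR.inj p).1 inferInstance
    obtain ⟨φ', hφ', r, hr⟩ := cartier_ext hqR (q := p ^ e) (fun x y => add_pow_char_pow x y p e)
      (fun x y => add_pow_char_pow x y p e) φ hφ f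
    rw [hφf, map_one, one_mul] at hr
    have hun : IsUnit (φ' (iR f)) := by
      by_contra hcon
      obtain ⟨r₀, r₁, r₂, rfl⟩ := hcub.gen r
      have e1 : algebraMap P' S (i r₀ + s) ∈ maximalIdeal S := by
        have e : algebraMap P' S (i r₀ + s) = φ' (iR f) - algebraMap P' S (i r₁) * iR ω -
            algebraMap P' S (i r₂) * iR θ := by
          rw [hr]
          simp only [Algebra.smul_def, map_add, map_mul, hTR]
          ring
        rw [e]
        exact Ideal.sub_mem _ (Ideal.sub_mem _ ((IsLocalRing.mem_maximalIdeal _).2 hcon)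
          (Ideal.mul_mem_left _ _ l2)) (Ideal.mul_mem_left _ _ l3)
      exact (IsLocalRing.mem_maximalIdeal _).1 e1 ((hu r₀).map (algebraMap P' S))
    obtain ⟨w, hw⟩ := hun.exists_left_inv
    refine ⟨(AddMonoidHom.mulLeft w).comp φ', ?_, ?_⟩
    · intro r z
      show w * φ' (r ^ p ^ e * z) = r * (w * φ' z)
      rw [hφ', mul_left_comm]
    · exact hw
  exact ⟨S, inferInstance, inferInstance, hloc, inferInstance, hfin, hfree, K', inferInstance,
    inferInstance, hfrac, inferInstance, inferInstance, inferInstance, inferInstance, hfd, hsep,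
    C', jK x, y₀', iR ω, iR θ, iR f, hC', hcub', hf', hsp⟩

/-- `S_QBC`, without using `S_PSF` -/
theorem qbc0 : S_QBC := by
  intro p e _ k k' _ _ _ _ _ D R L K _ _ _ _ _ _ _ _ _ _ _ _ _ _ _ _ _ _ _ C a b c d x y₀ ω θ f N
    hk hkk ha hb hc hd hC hcub hf hsplit
  obtain ⟨s, t₀, t₁, hq0⟩ := quad_field hkk
  haveI : IsDomain (MvPowerSeries (Fin D) k) := NoZeroDivisors.to_isDomain _
  haveI : IsDomain (MvPowerSeries (Fin D) k') := NoZeroDivisors.to_isDomain _
  have hmem : ∀ (k : Type) (_ : Field k) (g : MvPowerSeries (Fin D) k),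
      g ∈ maximalIdeal (MvPowerSeries (Fin D) k) ↔ MvPowerSeries.constantCoeff g = 0 := by
    intro k _ g
    rw [IsLocalRing.mem_maximalIdeal, mem_nonunits_iff, MvPowerSeries.isUnit_iff_constantCoeff,
      isUnit_iff_ne_zero, not_not]
  obtain ⟨R', i1, i2, i3, i4, i5, i6, K', i7, i8, i9, i10, i11, i12, i13, i14, i15, C', x', y₀',
    ω', θ', f', h1, h2, h3, h4⟩ := qbc_gen (L' := FractionRing (MvPowerSeries (Fin D) k')) p e
      (MvPowerSeries.map (σ := Fin D) (algebraMap k k')) (MvPowerSeries.C s)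
      (MvPowerSeries.C t₀) (MvPowerSeries.C t₁) (quad_ps hq0 D) (by
        intro g hg
        rw [hmem] at hg ⊢
        rw [MvPowerSeries.constantCoeff_map, hg, map_zero]) (by
        intro g
        rw [MvPowerSeries.isUnit_iff_constantCoeff, isUnit_iff_ne_zero, map_add,
          MvPowerSeries.constantCoeff_map, MvPowerSeries.constantCoeff_C]
        intro h0
        exact one_ne_zero (hq0.ind (MvPowerSeries.constantCoeff g) 1
          (by rw [map_one, one_mul]; exact h0)).2)
      C a b c d x y₀ ω θ f N ha hb hc hd hcub hf hsplit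
  exact ⟨R', i1, i2, i3, i4, i5, i6, FractionRing (MvPowerSeries (Fin D) k'), inferInstance,
    inferInstance, inferInstance, K', i7, i8, i9, i10, i11, i12, i13, i14, i15, C', x', y₀', ω',
    θ', f', h1, h2, h3, h4⟩

theorem qbc (_ : S_PSF) : S_QBC := qbc0

end Pool.Agent.H553.FT867QBC
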