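import Mathlib
import Pool.Agent.H812.Gi.Spec
import Pool.Agent.H551.TmLEAF

/-!
# Project GI of helper812: `GLevels`

Zero curves of the level functions: existence, distances, comparison with leaves.
-/

set_option autoImplicit false

open Real Filter Topology Set
open scoped ContDiff NNReal

namespace Pool.Agent.H553.Gi

open Pool.Agent.W811.Stu Pool.Agent.H812.Tm Pool.Agent.H812.Gi Pool.Agent.H551.TmLEAF

/-! ### Gronwall, in both directions -/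

theorem gron_fwd {g g' : ℝ → ℝ} {L ε a b : ℝ} (hab : a ≤ b)
    (hg : ∀ z ∈ Icc a b, HasDerivAt g (g' z) z)
    (hb : ∀ z ∈ Icc a b, |g' z| ≤ L * |g z| + ε) :
    |g b| ≤ gronwallBound |g a| L ε (b - a) := by
  have h := norm_le_gronwallBound_of_norm_deriv_right_le (f := g) (f' := g') (δ := |g a|) (K := L)
    (ε := ε) (a := a) (b := b) (fun z hz => (hg z hz).continuousAt.continuousWithinAt)
    (fun z hz => (hg z (Ico_subset_Icc_self hz)).hasDerivWithinAt)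
    (le_of_eq (Real.norm_eq_abs _))
    (fun z hz => by
      rw [Real.norm_eq_abs, Real.norm_eq_abs]
      exact hb z (Ico_subset_Icc_self hz)) b (right_mem_Icc.2 hab)
  rwa [Real.norm_eq_abs] at h

theorem gron_bound {D L ε x : ℝ} (hD : 0 ≤ D) (hL : 1 ≤ L) (hε : 0 ≤ ε) (hx : x ≤ 2) :
    gronwallBound D L ε x ≤ exp (2 * L) * (D + ε) := by
  have hL0 : L ≠ 0 := by positivity
  rw [gronwallBound_of_K_ne_0 hL0]
  have h1 : exp (L * x) ≤ exp (2 * L) := Real.exp_le_exp.2 (by nlinarith)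
  have h2 : 0 < exp (L * x) := Real.exp_pos _
  have h3 : ε / L ≤ ε := div_le_self hε hL
  have h4 : 0 ≤ ε / L := by positivity
  have h5 : D * exp (L * x) ≤ D * exp (2 * L) := mul_le_mul_of_nonneg_left h1 hD
  have h6 : ε / L * (exp (L * x) - 1) ≤ ε / L * exp (2 * L) :=
    mul_le_mul_of_nonneg_left (by linarith) h4
  have h7 : ε / L * exp (2 * L) ≤ ε * exp (2 * L) :=
    mul_le_mul_of_nonneg_right h3 (Real.exp_pos _).le
  nlinarith

theorem gron {g g' : ℝ → ℝ} {L ε r : ℝ} (hr : r < 1) (hL : 1 ≤ L) (hε : 0 ≤ ε)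
    (hg : ∀ z, |z| ≤ r → HasDerivAt g (g' z) z)
    (hb : ∀ z, |z| ≤ r → |g' z| ≤ L * |g z| + ε) {z z' : ℝ} (hz : |z| ≤ r) (hz' : |z'| ≤ r) :
    |g z| ≤ exp (2 * L) * (|g z'| + ε) := by
  have g0 := abs_le.1 hz
  have g1 := abs_le.1 hz'
  rcases le_total z' z with h | h
  · have hI : ∀ s ∈ Icc z' z, |s| ≤ r := fun s hs => abs_le.2 ⟨by linarith [hs.1], by linarith [hs.2]⟩
    exact (gron_fwd h (fun s hs => hg s (hI s hs)) (fun s hs => hb s (hI s hs))).trans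
      (gron_bound (abs_nonneg _) hL hε (by linarith))
  · have hI : ∀ s ∈ Icc (-z') (-z), |(-s)| ≤ r :=
      fun s hs => abs_le.2 ⟨by linarith [hs.2], by linarith [hs.1]⟩
    have key := gron_fwd (g := fun s => g (-s)) (g' := fun s => -g' (-s)) (L := L) (ε := ε)
      (a := -z') (b := -z) (by linarith) (fun s hs => ?_) (fun s hs => ?_)
    · simp only [neg_neg] at key
      exact key.trans (gron_bound (abs_nonneg _) hL hε (by linarith))
    · have h := (hg (-s) (hI s hs)).comp s (hasDerivAt_neg s)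
      rw [mul_neg_one] at h
      exact h
    · rw [abs_neg]
      exact hb (-s) (hI s hs)

/-! ### existence -/

theorem lev_exists (hC : SCoord) (hD : SDt) {δ κ : ℝ} {θ : ℝ → ℝ} {d : ℕ → ℕ} (h : Cx δ κ θ d)
    {M : ℕ} (hM : 3 ≤ M) {v : ℝ × ℝ} (hv : v ∈ U) (hY : Yf δ d M v = 0) :
    ∃ ϑ, ϑ v.1 = v.2 ∧ Lev δ d M ϑ := by
  obtain ⟨ψ, h0, h1⟩ := level hC hD h.hδ h.hκ h.hd h.hθ (by omega : 2 ≤ M) hv
    (by rw [hY, abs_zero]; exact zero_le_one)
  refine ⟨ψ, h0, fun z hz => ⟨(h1 z hz).1, ?_⟩⟩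
  have hcc : 1 < cc δ := h.hκ1.trans h.hκ
  have hw : ∀ z, |z| < 1 → HasDerivAt (fun z => Yf δ d M (z, ψ z)) 0 z := by
    intro z hz
    have hzU : (z, ψ z) ∈ U := hz
    have k1 : HasFDerivAt (Yf δ d M) (fderiv ℝ (Yf δ d M) (z, ψ z)) (z, ψ z) :=
      ((((hD δ d M).1).contDiffAt
        (Pool.Agent.H551.TmLEAF.isOpen_U.mem_nhds hzU)).differentiableAt (by simp)).hasFDerivAt
    have k2 : HasDerivAt (fun z => (z, ψ z)) ((1 : ℝ), sl (Yf δ d M) (z, ψ z)) z :=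
      (hasDerivAt_id z).prodMk (h1 z hz).1
    have k3 := k1.comp_hasDerivAt z k2
    refine k3.congr_deriv ?_
    have k4 : ((1 : ℝ), sl (Yf δ d M) (z, ψ z)) =
        (1, 0) + sl (Yf δ d M) (z, ψ z) • ((0 : ℝ), (1 : ℝ)) := by
      ext <;> simp
    rw [k4, map_add, map_smul, smul_eq_mul]
    show dz (Yf δ d M) (z, ψ z) + sl (Yf δ d M) (z, ψ z) * dt (Yf δ d M) (z, ψ z) = 0
    have := dt_ne hC hD h.hδ h.hd (by omega : 2 ≤ M) hzU ((h1 z hz).2.trans_lt hcc)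
    unfold sl
    field_simp
    ring
  have hs : IsOpen {z : ℝ | |z| < 1} := isOpen_lt continuous_abs continuous_const
  have hs' : IsPreconnected {z : ℝ | |z| < 1} := by
    have : {z : ℝ | |z| < 1} = Ioo (-1) 1 := by
      ext z
      show |z| < 1 ↔ -1 < z ∧ z < 1
      exact abs_lt
    rw [this]
    exact isPreconnected_Ioo
  have h2 := hs.is_const_of_deriv_eq_zero hs'
    (fun z hz => (hw z hz).differentiableAt.differentiableWithinAt)
    (fun z hz => (hw z hz).deriv) (x := z) (y := v.1) hz hv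
  have h3 : Yf δ d M (z, ψ z) = Yf δ d M (v.1, ψ v.1) := h2
  rw [h3, h0]
  exact hY

/-- zero curves which meet coincide -/
theorem lev_unique (hC : SCoord) (hD : SDt) {δ κ : ℝ} {θ : ℝ → ℝ} {d : ℕ → ℕ} (h : Cx δ κ θ d)
    {M : ℕ} (hM : 3 ≤ M) {ϑ1 ϑ2 : ℝ → ℝ} (h1 : Lev δ d M ϑ1) (h2 : Lev δ d M ϑ2) {z0 : ℝ}
    (hz0 : |z0| < 1) (h0 : ϑ1 z0 = ϑ2 z0) {z : ℝ} (hz : |z| < 1) : ϑ1 z = ϑ2 z := by
  have e : ∀ ϑ, Lev δ d M ϑ → ∀ z, |z| < 1 → HasDerivAt ϑ (sM θ δ d M (z, ϑ z)) z := by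
    intro ϑ hϑ z hz
    obtain ⟨a, b⟩ := hϑ z hz
    have : sM θ δ d M (z, ϑ z) = sl (Yf δ d M) (z, ϑ z) := by
      unfold sM
      rw [b, h.hθ.one 0 (by rw [abs_zero]; exact zero_le_one), one_mul]
    rw [this]
    exact a
  exact ode_unique (sM_C1 hC hD h.hδ h.hκ h.hd h.hθ (by omega : 2 ≤ M)) (e ϑ1 h1) (e ϑ2 h2)
    hz0 h0 hz

/-! ### the theorem -/

theorem tLevels (hN : GNear) (hG : GGap) (hF : SField) (hD : SDt) (hC : SCoord) : GLevels := by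
  intro δ κ θ d h
  refine ⟨fun M hM v hv hY => lev_exists hC hD h hM hv hY, fun r hr => ?_⟩
  obtain ⟨C1, hC10, hC1⟩ := hN δ κ θ d h r hr
  obtain ⟨f1, f2, f3⟩ := hF δ κ d θ h.hδ h.hκ1 h.hκ h.hd h.hθ
  obtain ⟨C2, hC20, hC2⟩ := f3 r hr
  obtain ⟨K, hK⟩ := (fld_of_C1 f1 f2).lip r hr
  have hcc : 1 < cc δ := h.hκ1.trans h.hκ
  have hcc0 : 0 < cc δ := by linarith
  have hLip : ∀ z, |z| ≤ r → ∀ s t : ℝ, |sg θ δ d (z, s) - sg θ δ d (z, t)| ≤ K * |s - t| := by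
    intro z hz s t
    have := (hK z hz).2.dist_le_mul s t
    rwa [Real.dist_eq, Real.dist_eq] at this
  obtain ⟨L, hL⟩ : ∃ L : ℝ, L = K + 8 * C1 / cc δ + 1 := ⟨_, rfl⟩
  have hK0 : (0 : ℝ) ≤ K := NNReal.coe_nonneg K
  have hCc : 0 < 8 * C1 / cc δ := by positivity
  have hL1 : 1 ≤ L := by rw [hL]; linarith
  have hE0 : 0 < exp (2 * L) := Real.exp_pos _
  refine ⟨exp (2 * L) * (1 + C2) + C2, by positivity, ?_, ?_, ?_⟩
  · -- two zero curves
    intro M hM ϑ1 ϑ2 h1 h2 z z' hz hz'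
    have hbig : exp (2 * L) ≤ exp (2 * L) * (1 + C2) + C2 := by nlinarith
    by_cases heq : ∃ z0, |z0| < 1 ∧ ϑ1 z0 = ϑ2 z0
    · obtain ⟨z0, hz0, e0⟩ := heq
      rw [lev_unique hC hD h hM h1 h2 hz0 e0 (hz.trans_lt hr), sub_self, abs_zero]
      positivity
    · push Not at heq
      have key := gron (g := fun z => ϑ2 z - ϑ1 z)
        (g' := fun z => sl (Yf δ d M) (z, ϑ2 z) - sl (Yf δ d M) (z, ϑ1 z)) (L := L) (ε := 0)
        hr hL1 le_rfl
        (fun z hz => ((h2 z (hz.trans_lt hr)).1).sub ((h1 z (hz.trans_lt hr)).1))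
        (fun z hz => ?_) hz hz'
      · simp only [add_zero] at key
        exact key.trans (mul_le_mul_of_nonneg_right hbig (abs_nonneg _))
      · -- the estimate of the derivative
        have hz1 : |z| < 1 := hz.trans_lt hr
        have hne : ϑ1 z ≠ ϑ2 z := heq z hz1
        have hone : ∀ ϑ ϑ' : ℝ → ℝ, Lev δ d M ϑ → Lev δ d M ϑ' → ϑ z ≠ ϑ' z →
            |sg θ δ d (z, ϑ z) - sl (Yf δ d M) (z, ϑ z)| ≤ 4 * C1 / cc δ * |ϑ' z - ϑ z| := by
          intro ϑ ϑ' hϑ hϑ' hn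
          have k1 := hC1 M hM (z, ϑ z) hz (by
            rw [(hϑ z hz1).2, abs_zero]; exact zero_le_one)
          have k2 := hG δ d h.hδ h.hd M (by omega) z (ϑ z) (ϑ' z) hz1 hn (hϑ z hz1).2
            (hϑ' z hz1).2
          have k3 : |sg θ δ d (z, ϑ z) - sl (Yf δ d M) (z, ϑ z)| * (cc δ / 4) ≤
              C1 * |ϑ' z - ϑ z| := by
            calc |sg θ δ d (z, ϑ z) - sl (Yf δ d M) (z, ϑ z)| * (cc δ / 4)
                ≤ |sg θ δ d (z, ϑ z) - sl (Yf δ d M) (z, ϑ z)| *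
                  (|ϑ' z - ϑ z| * |dt (Yf δ d M) (z, ϑ z)|) :=
                  mul_le_mul_of_nonneg_left k2 (abs_nonneg _)
              _ = (|sg θ δ d (z, ϑ z) - sl (Yf δ d M) (z, ϑ z)| *
                  |dt (Yf δ d M) (z, ϑ z)|) * |ϑ' z - ϑ z| := by ring
              _ ≤ C1 * |ϑ' z - ϑ z| := mul_le_mul_of_nonneg_right k1 (abs_nonneg _)
          have k4 : |sg θ δ d (z, ϑ z) - sl (Yf δ d M) (z, ϑ z)| =
              (|sg θ δ d (z, ϑ z) - sl (Yf δ d M) (z, ϑ z)| * (cc δ / 4)) * (4 / cc δ) := by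
            field_simp
          rw [k4]
          calc _ ≤ (C1 * |ϑ' z - ϑ z|) * (4 / cc δ) :=
                mul_le_mul_of_nonneg_right k3 (by positivity)
            _ = 4 * C1 / cc δ * |ϑ' z - ϑ z| := by ring
        have e1 := hone ϑ1 ϑ2 h1 h2 hne
        have e2 := hone ϑ2 ϑ1 h2 h1 hne.symm
        rw [abs_sub_comm (ϑ1 z) (ϑ2 z)] at e2
        have e3 := hLip z hz (ϑ2 z) (ϑ1 z)
        have e4 : sl (Yf δ d M) (z, ϑ2 z) - sl (Yf δ d M) (z, ϑ1 z) =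
            -(sg θ δ d (z, ϑ2 z) - sl (Yf δ d M) (z, ϑ2 z)) +
            ((sg θ δ d (z, ϑ2 z) - sg θ δ d (z, ϑ1 z)) +
            (sg θ δ d (z, ϑ1 z) - sl (Yf δ d M) (z, ϑ1 z))) := by ring
        have e5 := abs_add_le (-(sg θ δ d (z, ϑ2 z) - sl (Yf δ d M) (z, ϑ2 z)))
            ((sg θ δ d (z, ϑ2 z) - sg θ δ d (z, ϑ1 z)) +
            (sg θ δ d (z, ϑ1 z) - sl (Yf δ d M) (z, ϑ1 z)))
        have e6 := abs_add_le (sg θ δ d (z, ϑ2 z) - sg θ δ d (z, ϑ1 z))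
            (sg θ δ d (z, ϑ1 z) - sl (Yf δ d M) (z, ϑ1 z))
        rw [abs_neg] at e5
        show |sl (Yf δ d M) (z, ϑ2 z) - sl (Yf δ d M) (z, ϑ1 z)| ≤ L * |ϑ2 z - ϑ1 z| + 0
        rw [e4]
        have e7 : L * |ϑ2 z - ϑ1 z| = K * |ϑ2 z - ϑ1 z| + 4 * C1 / cc δ * |ϑ2 z - ϑ1 z| +
            4 * C1 / cc δ * |ϑ2 z - ϑ1 z| + |ϑ2 z - ϑ1 z| := by
          rw [hL]; ring
        rw [e7]
        have := abs_nonneg (ϑ2 z - ϑ1 z)
        linarith
  · -- zero curves and leaves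
    intro M hM ϑ ψ hϑ hψ z z' hz hz'
    obtain ⟨P, hP⟩ : ∃ P : ℝ, P = 2 ^ (M / 2) := ⟨_, rfl⟩
    have hP0 : 0 < P := by rw [hP]; positivity
    have key := gron (g := fun z => ϑ z - ψ z)
      (g' := fun z => sl (Yf δ d M) (z, ϑ z) - sg θ δ d (z, ψ z)) (L := L) (ε := C2 / P)
      hr hL1 (by positivity)
      (fun z hz => ((hϑ z (hz.trans_lt hr)).1).sub ((hψ z (hz.trans_lt hr)).1))
      (fun z hz => ?_) hz hz'
    · have k1 : |ϑ z - ψ z| ≤ exp (2 * L) * (|ϑ z' - ψ z'| + C2 / P) := key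
      rw [← hP]
      have k2 : 0 ≤ |ϑ z' - ψ z'| := abs_nonneg _
      have k3 : 0 < 1 / P := by positivity
      have k4 : C2 / P = C2 * (1 / P) := by ring
      have k5 : |ϑ z' - ψ z'| + C2 / P ≤ (1 + C2) * (|ϑ z' - ψ z'| + 1 / P) := by
        rw [k4]
        nlinarith
      calc |ϑ z - ψ z| ≤ exp (2 * L) * (|ϑ z' - ψ z'| + C2 / P) := k1
        _ ≤ exp (2 * L) * ((1 + C2) * (|ϑ z' - ψ z'| + 1 / P)) :=
          mul_le_mul_of_nonneg_left k5 hE0.le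
        _ ≤ (exp (2 * L) * (1 + C2) + C2) * (|ϑ z' - ψ z'| + 1 / P) := by
          have : 0 ≤ C2 * (|ϑ z' - ψ z'| + 1 / P) := by positivity
          nlinarith
    · have hz1 : |z| < 1 := hz.trans_lt hr
      have e1 := hC2 (z, ϑ z) hz M hM (by rw [(hϑ z hz1).2, abs_zero]; exact zero_le_one)
      rw [← hP] at e1
      have e2 : |sg θ δ d (z, ϑ z) - sl (Yf δ d M) (z, ϑ z)| ≤ C2 / P := by
        rw [le_div_iff₀ hP0]
        exact e1
      have e3 := hLip z hz (ϑ z) (ψ z)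
      have e4 : sl (Yf δ d M) (z, ϑ z) - sg θ δ d (z, ψ z) =
          -(sg θ δ d (z, ϑ z) - sl (Yf δ d M) (z, ϑ z)) +
          (sg θ δ d (z, ϑ z) - sg θ δ d (z, ψ z)) := by ring
      have e5 := abs_add_le (-(sg θ δ d (z, ϑ z) - sl (Yf δ d M) (z, ϑ z)))
          (sg θ δ d (z, ϑ z) - sg θ δ d (z, ψ z))
      rw [abs_neg] at e5
      show |sl (Yf δ d M) (z, ϑ z) - sg θ δ d (z, ψ z)| ≤ L * |ϑ z - ψ z| + C2 / P
      rw [e4]
      have e6 : K * |ϑ z - ψ z| ≤ L * |ϑ z - ψ z| :=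
        mul_le_mul_of_nonneg_right (by rw [hL]; linarith) (abs_nonneg _)
      linarith
  · -- slopes
    intro M hM ϑ hϑ z hz
    have hz1 : |z| < 1 := hz.trans_lt hr
    have e1 := hC2 (z, ϑ z) hz M hM (by rw [(hϑ z hz1).2, abs_zero]; exact zero_le_one)
    rw [abs_sub_comm]
    refine e1.trans ?_
    have : 0 ≤ exp (2 * L) * (1 + C2) := by positivity
    linarith

end Pool.Agent.H553.Gi
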