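import Pool.Agent.H387.QR.Defs3
import Pool.Agent.H553.QRT00

/-!
# T08. Perfectness of the pairing between the integral forms of `V` and its dual
-/

namespace Pool.Agent.H387.QR.T08

open scoped TensorProduct

variable {I : Type} [Fintype I] [DecidableEq I] {C : Cartan I} {K : Type*} [Field K] [HasQ K]
variable {M : Type*} [AddCommGroup M] [Module K M] {N : Type*} [AddCommGroup N] [Module K N]

section prelim

/-! ### `R`-lattices -/

theorem map_smulR (f : M →ₗ[K] N) (r : RR K) (x : M) : f (r • x) = r • f x := by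
  rw [Subring.smul_def, Subring.smul_def, map_smul]

theorem smul_memR {L : Submodule (RR K) M} {c : K} (hc : c ∈ RR K) {x : M} (hx : x ∈ L) :
    c • x ∈ L := L.smul_mem ⟨c, hc⟩ hx

theorem map_span {S : Set M} {L : Submodule (RR K) N} (f : M →ₗ[K] N) (h : ∀ s ∈ S, f s ∈ L)
    {x : M} (hx : x ∈ Submodule.span (RR K) S) : f x ∈ L := by
  induction hx using Submodule.span_induction with
  | mem x hx => exact h x hx
  | zero => rw [map_zero]; exact L.zero_mem
  | add x y _ _ hx hy => rw [map_add]; exact L.add_mem hx hy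
  | smul r x _ hx => rw [map_smulR]; exact L.smul_mem r hx

theorem fun_span {S : Set M} (f : M →ₗ[K] K) (h : ∀ s ∈ S, f s ∈ RR K)
    {x : M} (hx : x ∈ Submodule.span (RR K) S) : f x ∈ RR K := by
  induction hx using Submodule.span_induction with
  | mem x hx => exact h x hx
  | zero => rw [map_zero]; exact (RR K).zero_mem
  | add x y _ _ hx hy => rw [map_add]; exact (RR K).add_mem hx hy
  | smul r x _ hx =>
    rw [Subring.smul_def, map_smul, smul_eq_mul]
    exact (RR K).mul_mem r.2 hx

/-! ### weights -/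

theorem Km_wt (V : Mod C K M) {m : I → ℤ} {x : M} (h : x ∈ V.wt m) (i : I) :
    V.Km i x = qq K ^ (-((C.d i : ℤ) * m i)) • x := by
  have h1 := V.kmkp i x
  rw [Mod.mem_wt.1 h i, map_smul] at h1
  rw [zpow_neg, eq_inv_smul_iff₀ (zpow_ne_zero _ HasQ.q_ne)]
  exact h1

/-- The content of a word. -/
def kw : List I → I → ℤ
  | [] => 0
  | j :: w => kw w + Pi.single j 1

theorem rt_zero : C.rt 0 = 0 := by
  funext i
  simp [Cartan.rt]

theorem rt_add_single (k : I → ℤ) (j : I) :
    C.rt (k + Pi.single j 1) = fun i => C.rt k i + C.a i j := by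
  funext i
  simp only [Cartan.rt, Pi.add_apply, mul_add, Finset.sum_add_distrib]
  congr 1
  rw [Finset.sum_eq_single j]
  · simp
  · intro b _ hb
    rw [Pi.single_eq_of_ne hb, mul_zero]
  · intro h
    exact absurd (Finset.mem_univ j) h

theorem rt_sub_single (k : I → ℤ) (j : I) :
    C.rt (k - Pi.single j 1) = fun i => C.rt k i - C.a i j := by
  have h := rt_add_single (C := C) (k - Pi.single j 1) j
  rw [sub_add_cancel] at h
  funext i
  rw [h]
  ring

theorem Fw_wt (V : Mod C K M) {m : I → ℤ} {x : M} (h : x ∈ V.wt m) (w : List I) :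
    V.Fw w x ∈ V.wt (m - C.rt (kw w)) := by
  induction w with
  | nil =>
    show V.Fw [] x ∈ V.wt (m - C.rt 0)
    rw [rt_zero, sub_zero]
    exact h
  | cons j w ih =>
    have h1 := F_wt V j ih
    have h2 : (fun i => (m - C.rt (kw w)) i - C.a i j) = m - C.rt (kw (j :: w)) := by
      funext i
      show m i - C.rt (kw w) i - C.a i j = m i - C.rt (kw w + Pi.single j 1) i
      rw [rt_add_single]
      ring
    rw [h2] at h1
    exact h1

theorem Ew_wt (V : Mod C K M) {m : I → ℤ} {x : M} (h : x ∈ V.wt m) (w : List I) :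
    V.Ew w x ∈ V.wt (m + C.rt (kw w)) := by
  induction w with
  | nil =>
    show V.Ew [] x ∈ V.wt (m + C.rt 0)
    rw [rt_zero, add_zero]
    exact h
  | cons j w ih =>
    have h1 := E_wt V j ih
    have h2 : (fun i => (m + C.rt (kw w)) i + C.a i j) = m + C.rt (kw (j :: w)) := by
      funext i
      show m i + C.rt (kw w) i + C.a i j = m i + C.rt (kw w + Pi.single j 1) i
      rw [rt_add_single]
      ring
    rw [h2] at h1
    exact h1

theorem stab_Kp {V : Mod C K M} {L : Submodule (RR K) M} (hL : V.Stab L) (i : I) {x : M}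
    (hx : x ∈ L) : V.Kp i x ∈ L := by
  refine map_span (V.Kp i) ?_ (hL.wt hx)
  rintro s ⟨hs, m, hm⟩
  rw [Mod.mem_wt.1 hm i]
  exact smul_memR (qz_mem _) hs

theorem stab_Km {V : Mod C K M} {L : Submodule (RR K) M} (hL : V.Stab L) (i : I) {x : M}
    (hx : x ∈ L) : V.Km i x ∈ L := by
  refine map_span (V.Km i) ?_ (hL.wt hx)
  rintro s ⟨hs, m, hm⟩
  rw [Km_wt V hm i]
  exact smul_memR (qz_mem _) hs

theorem brk (V : Mod C K M) {m : I → ℤ} {x : M} (h : x ∈ V.wt m) (i : I) :
    (hq K (C.d i))⁻¹ • (V.Kp i x - V.Km i x) = qd K (C.d i) (m i) • x := by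
  rw [Mod.mem_wt.1 h i, Km_wt V h i, ← sub_smul, smul_smul, qd]
  congr 1
  rw [div_eq_mul_inv, mul_comm]

theorem d_ne (i : I) : ((C.d i : ℕ) : ℤ) ≠ 0 := by
  have := C.d_pos i
  omega

/-! ### tensor products -/

theorem tE (V : Mod C K M) (V' : Mod C K N) (i : I) (x : M) (y : N) :
    (V.tensor V').E i (x ⊗ₜ y) = V.E i x ⊗ₜ y + V.Kp i x ⊗ₜ V'.E i y := by
  simp [Mod.tensor]

theorem tF (V : Mod C K M) (V' : Mod C K N) (i : I) (x : M) (y : N) :
    (V.tensor V').F i (x ⊗ₜ y) = V.F i x ⊗ₜ V'.Km i y + x ⊗ₜ V'.F i y := by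
  simp [Mod.tensor]

theorem tKp (V : Mod C K M) (V' : Mod C K N) (i : I) (x : M) (y : N) :
    (V.tensor V').Kp i (x ⊗ₜ y) = V.Kp i x ⊗ₜ V'.Kp i y := by
  simp [Mod.tensor]

theorem tmul_mem_lt {L : Submodule (RR K) M} {L' : Submodule (RR K) N} {x : M} {y : N}
    (hx : x ∈ L) (hy : y ∈ L') : x ⊗ₜ[K] y ∈ lt L L' :=
  Submodule.subset_span ⟨x, hx, y, hy, rfl⟩

theorem lt_stab {V : Mod C K M} {V' : Mod C K N} {L : Submodule (RR K) M}
    {L' : Submodule (RR K) N} (hL : V.Stab L) (hL' : V'.Stab L') :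
    (V.tensor V').Stab (lt L L') where
  E i z hz := by
    refine map_span ((V.tensor V').E i) ?_ hz
    rintro s ⟨x, hx, y, hy, rfl⟩
    rw [tE]
    exact Submodule.add_mem _ (tmul_mem_lt (hL.E i x hx) hy)
      (tmul_mem_lt (stab_Kp hL i hx) (hL'.E i y hy))
  F i z hz := by
    refine map_span ((V.tensor V').F i) ?_ hz
    rintro s ⟨x, hx, y, hy, rfl⟩
    rw [tF]
    exact Submodule.add_mem _ (tmul_mem_lt (hL.F i x hx) (stab_Km hL' i hy))
      (tmul_mem_lt hx (hL'.F i y hy))
  wt := by
    intro z hz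
    refine map_span LinearMap.id ?_ hz
    rintro s ⟨x, hx, y, hy, rfl⟩
    show x ⊗ₜ[K] y ∈ Submodule.span (RR K) {z | z ∈ lt L L' ∧ ∃ m : I → ℤ, z ∈ (V.tensor V').wt m}
    refine map_span ((TensorProduct.mk K M N).flip y) ?_ (hL.wt hx)
    rintro x' ⟨hx', m, hm⟩
    show x' ⊗ₜ[K] y ∈ _
    refine map_span (TensorProduct.mk K M N x') ?_ (hL'.wt hy)
    rintro y' ⟨hy', m', hm'⟩
    show x' ⊗ₜ[K] y' ∈ _
    refine Submodule.subset_span ⟨tmul_mem_lt hx' hy', m + m', ?_⟩
    rw [Mod.mem_wt]
    intro i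
    rw [tKp, Mod.mem_wt.1 hm i, Mod.mem_wt.1 hm' i, TensorProduct.tmul_smul,
      ← TensorProduct.smul_tmul', smul_smul, ← qadd, Pi.add_apply, mul_add,
      add_comm ((C.d i : ℤ) * m i)]

/-! ### invariant pairings -/

theorem ev_Kp {V : Mod C K M} {V' : Mod C K N} {ev : N →ₗ[K] M →ₗ[K] K} (hev : IsPair V' V ev)
    (i : I) (y : N) (x : M) : ev (V'.Kp i y) x = ev y (V.Km i x) := by
  have h := hev.Kp i y (V.Km i x)
  rwa [V.kpkm] at h

theorem ev_Km {V : Mod C K M} {V' : Mod C K N} {ev : N →ₗ[K] M →ₗ[K] K} (hev : IsPair V' V ev)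
    (i : I) (y : N) (x : M) : ev (V'.Km i y) x = ev y (V.Kp i x) := by
  have h := hev.Kp i (V'.Km i y) x
  rw [V'.kpkm] at h
  exact h.symm

theorem ev_E {V : Mod C K M} {V' : Mod C K N} {ev : N →ₗ[K] M →ₗ[K] K} (hev : IsPair V' V ev)
    (i : I) (y : N) (x : M) : ev (V'.E i y) x = -ev y (V.Km i (V.E i x)) := by
  have h := hev.E i y x
  rw [ev_Kp hev] at h
  exact eq_neg_of_add_eq_zero_left h

theorem ev_F {V : Mod C K M} {V' : Mod C K N} {ev : N →ₗ[K] M →ₗ[K] K} (hev : IsPair V' V ev)
    (i : I) (y : N) (x : M) : ev (V'.F i y) x = -ev y (V.F i (V.Kp i x)) := by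
  have h := hev.F i y (V.Kp i x)
  rw [V.kmkp] at h
  exact eq_neg_of_add_eq_zero_left h

/-- The endomorphism attached to a tensor. -/
def Phi (ev : N →ₗ[K] M →ₗ[K] K) : M ⊗[K] N →ₗ[K] M →ₗ[K] M :=
  TensorProduct.lift (LinearMap.mk₂ K (fun x y => (ev y).smulRight x)
    (by intro a b c; ext x; simp)
    (by
      intro r a b; ext x
      rw [LinearMap.smul_apply, LinearMap.smulRight_apply, LinearMap.smulRight_apply, smul_comm])
    (by
      intro a b c; ext x
      rw [LinearMap.add_apply, map_add, LinearMap.smulRight_apply, LinearMap.smulRight_apply,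
        LinearMap.smulRight_apply, LinearMap.add_apply, add_smul])
    (by
      intro r a b; ext x
      rw [LinearMap.smul_apply, map_smul, LinearMap.smulRight_apply, LinearMap.smulRight_apply,
        LinearMap.smul_apply, smul_assoc]))

@[simp] theorem Phi_tmul (ev : N →ₗ[K] M →ₗ[K] K) (x : M) (y : N) (z : M) :
    Phi ev (x ⊗ₜ y) z = ev y z • x := by
  simp [Phi]

theorem Phi_E {V : Mod C K M} {V' : Mod C K N} {ev : N →ₗ[K] M →ₗ[K] K} (hev : IsPair V' V ev)
    (i : I) (t : M ⊗[K] N) (z : M) : Phi ev ((V.tensor V').E i t) z =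
      V.E i (Phi ev t z) - V.Kp i (Phi ev t (V.Km i (V.E i z))) := by
  induction t using TensorProduct.induction_on with
  | zero => simp
  | tmul x y =>
    rw [tE, map_add, LinearMap.add_apply, Phi_tmul, Phi_tmul, Phi_tmul, Phi_tmul, ev_E hev,
      map_smul, map_smul, neg_smul, sub_eq_add_neg]
  | add a b ha hb =>
    simp only [map_add, LinearMap.add_apply, ha, hb]
    abel

theorem Phi_F {V : Mod C K M} {V' : Mod C K N} {ev : N →ₗ[K] M →ₗ[K] K} (hev : IsPair V' V ev)
    (i : I) (t : M ⊗[K] N) (z : M) : Phi ev ((V.tensor V').F i t) z =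
      V.F i (Phi ev t (V.Kp i z)) - Phi ev t (V.F i (V.Kp i z)) := by
  induction t using TensorProduct.induction_on with
  | zero => simp
  | tmul x y =>
    rw [tF, map_add, LinearMap.add_apply, Phi_tmul, Phi_tmul, Phi_tmul, Phi_tmul, ev_F hev,
      ev_Km hev, map_smul, neg_smul, sub_eq_add_neg]
  | add a b ha hb =>
    simp only [map_add, LinearMap.add_apply, ha, hb]
    abel

theorem Phi_Kp {V : Mod C K M} {V' : Mod C K N} {ev : N →ₗ[K] M →ₗ[K] K} (hev : IsPair V' V ev)
    (i : I) (t : M ⊗[K] N) (z : M) : Phi ev ((V.tensor V').Kp i t) z =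
      V.Kp i (Phi ev t (V.Km i z)) := by
  induction t using TensorProduct.induction_on with
  | zero => simp
  | tmul x y => rw [tKp, Phi_tmul, Phi_tmul, ev_Kp hev, map_smul]
  | add a b ha hb => simp only [map_add, LinearMap.add_apply, ha, hb]

end prelim

variable [Module.Finite K M] [Module.Finite K N]

/-- The `R`-form generated by the highest weight vector. -/
def latF (V : Mod C K M) (v : M) : Submodule (RR K) M :=
  Submodule.span (RR K) (Set.range fun w => V.Fw w v)

/-- The `R`-form generated by the lowest weight vector. -/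
def latE (V : Mod C K M) (v : M) : Submodule (RR K) M :=
  Submodule.span (RR K) (Set.range fun w => V.Ew w v)

theorem latF_stab (V : Mod C K M) {lam : I → ℤ} {v : M} (hv : IsHigh V lam v) :
    V.Stab (latF V v) where
  E i x hx := by
    refine map_span (V.E i) ?_ hx
    rintro s ⟨w, rfl⟩
    show V.E i (V.Fw w v) ∈ latF V v
    induction w with
    | nil =>
      rw [Mod.Fw_nil, LinearMap.id_apply, hv.E i]
      exact Submodule.zero_mem _
    | cons j w ih =>
      have h1 : V.E i (V.Fw (j :: w) v) = V.F j (V.E i (V.Fw w v)) +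
          (if i = j then (hq K (C.d i))⁻¹ • (V.Kp i (V.Fw w v) - V.Km i (V.Fw w v)) else 0) := by
        rw [← V.ef i j, Mod.Fw_cons, LinearMap.comp_apply]
        abel
      rw [h1]
      refine Submodule.add_mem _ ?_ ?_
      · refine map_span (V.F j) ?_ ih
        rintro s ⟨u, rfl⟩
        exact Submodule.subset_span ⟨j :: u, rfl⟩
      · split_ifs
        · rw [brk V (Fw_wt V hv.wt w)]
          exact smul_memR (qd_mem (d_ne i) _) (Submodule.subset_span ⟨w, rfl⟩)
        · exact Submodule.zero_mem _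
  F i x hx := by
    refine map_span (V.F i) ?_ hx
    rintro s ⟨u, rfl⟩
    exact Submodule.subset_span ⟨i :: u, rfl⟩
  wt := by
    intro x hx
    refine map_span LinearMap.id ?_ hx
    rintro s ⟨w, rfl⟩
    exact Submodule.subset_span ⟨Submodule.subset_span ⟨w, rfl⟩, _, Fw_wt V hv.wt w⟩

theorem latE_stab (V : Mod C K M) {lam : I → ℤ} {v : M} (hv : IsLow V lam v) :
    V.Stab (latE V v) where
  F i x hx := by
    refine map_span (V.F i) ?_ hx
    rintro s ⟨w, rfl⟩
    show V.F i (V.Ew w v) ∈ latE V v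
    induction w with
    | nil =>
      rw [Mod.Ew_nil, LinearMap.id_apply, hv.F i]
      exact Submodule.zero_mem _
    | cons j w ih =>
      have h1 : V.F i (V.Ew (j :: w) v) = V.E j (V.F i (V.Ew w v)) -
          (if j = i then (hq K (C.d j))⁻¹ • (V.Kp j (V.Ew w v) - V.Km j (V.Ew w v)) else 0) := by
        rw [← V.ef j i, Mod.Ew_cons, LinearMap.comp_apply]
        abel
      rw [h1]
      refine Submodule.sub_mem _ ?_ ?_
      · refine map_span (V.E j) ?_ ih
        rintro s ⟨u, rfl⟩
        exact Submodule.subset_span ⟨j :: u, rfl⟩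
      · split_ifs
        · rw [brk V (Ew_wt V hv.wt w)]
          exact smul_memR (qd_mem (d_ne j) _) (Submodule.subset_span ⟨w, rfl⟩)
        · exact Submodule.zero_mem _
  E i x hx := by
    refine map_span (V.E i) ?_ hx
    rintro s ⟨u, rfl⟩
    exact Submodule.subset_span ⟨i :: u, rfl⟩
  wt := by
    intro x hx
    refine map_span LinearMap.id ?_ hx
    rintro s ⟨w, rfl⟩
    exact Submodule.subset_span ⟨Submodule.subset_span ⟨w, rfl⟩, _, Ew_wt V hv.wt w⟩

/-! ### the pairing of the two lattices -/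

theorem ev_low {V : Mod C K M} {V' : Mod C K N} {lam : I → ℤ} {l : N} (hl : IsLow V' lam l)
    {ev : N →ₗ[K] M →ₗ[K] K} (hev : IsPair V' V ev) (i : I) (z : M) : ev l (V.F i z) = 0 := by
  have h := hev.F i l z
  rwa [hl.F i, map_zero, LinearMap.zero_apply, zero_add] at h

theorem pair_mem {V : Mod C K M} {V' : Mod C K N} {lam : I → ℤ} {v : M} {l : N}
    (hv : IsHigh V lam v) (hl : IsLow V' (-lam) l) {ev : N →ₗ[K] M →ₗ[K] K} (hev : IsPair V' V ev)
    (h1 : ev l v = 1) {x : M} (hx : x ∈ latF V v) {y : N} (hy : y ∈ latE V' l) :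
    ev y x ∈ RR K := by
  have hS := latF_stab V hv
  have key : ∀ w : List I, ∀ x ∈ latF V v, ev (V'.Ew w l) x ∈ RR K := by
    intro w
    induction w with
    | nil =>
      intro x hx
      refine fun_span (ev l) ?_ hx
      rintro s ⟨u, rfl⟩
      cases u with
      | nil =>
        show ev l v ∈ RR K
        rw [h1]
        exact (RR K).one_mem
      | cons i u =>
        show ev l (V.F i (V.Fw u v)) ∈ RR K
        rw [ev_low hl hev]
        exact (RR K).zero_mem
    | cons i w ih =>
      intro x hx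
      show ev (V'.E i (V'.Ew w l)) x ∈ RR K
      rw [ev_E hev]
      exact (RR K).neg_mem (ih _ (stab_Km hS i (hS.E i x hx)))
  refine fun_span (ev.flip x) ?_ hy
  rintro s ⟨w, rfl⟩
  exact key w x hx

/-! ### dual bases -/

theorem exists_dual {ev : N →ₗ[K] M →ₗ[K] K} (nd : ∀ x, (∀ y, ev y x = 0) → x = 0)
    (nd' : ∀ y, (∀ x, ev y x = 0) → y = 0) {ι : Type*} [Fintype ι] (b : Module.Basis ι K M) :
    ∃ b' : ι → N, (∀ j x, ev (b' j) x = b.repr x j) ∧
      ∀ y, y = ∑ j, ev y (b j) • b' j := by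
  have hinj : Function.Injective ev := by
    rw [injective_iff_map_eq_zero]
    intro y hy
    exact nd' y fun x => by rw [hy, LinearMap.zero_apply]
  have hinj' : Function.Injective ev.flip := by
    rw [injective_iff_map_eq_zero]
    intro x hx
    exact nd x fun y => by rw [← LinearMap.flip_apply, hx, LinearMap.zero_apply]
  have e1 : Module.finrank K N = Module.finrank K (Module.Dual K M) := by
    have a1 := LinearMap.finrank_le_finrank_of_injective hinj
    have a2 := LinearMap.finrank_le_finrank_of_injective hinj'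
    have a3 : Module.finrank K (Module.Dual K M) = Module.finrank K M := Subspace.dual_finrank_eq
    have a4 : Module.finrank K (Module.Dual K N) = Module.finrank K N := Subspace.dual_finrank_eq
    have a5 : Module.finrank K N ≤ Module.finrank K (Module.Dual K M) := a1
    have a6 : Module.finrank K M ≤ Module.finrank K (Module.Dual K N) := a2
    omega
  have hsurj : Function.Surjective (ev : N →ₗ[K] Module.Dual K M) :=
    (LinearMap.injective_iff_surjective_of_finrank_eq_finrank e1).1 hinj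
  choose b' hb' using fun j => hsurj (b.coord j)
  have h1 : ∀ j x, ev (b' j) x = b.repr x j := by
    intro j x
    rw [hb' j, Module.Basis.coord_apply]
  refine ⟨b', h1, fun y => ?_⟩
  rw [← sub_eq_zero]
  apply nd'
  intro x
  rw [map_sub, LinearMap.sub_apply, sub_eq_zero]
  conv_lhs => rw [← b.sum_repr x]
  simp only [map_sum, map_smul, LinearMap.sum_apply, LinearMap.smul_apply, h1, smul_eq_mul]
  exact Finset.sum_congr rfl fun j _ => mul_comm _ _

/-- Invariants are multiples of the canonical tensor. -/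
theorem inv_eq {V : Mod C K M} {V' : Mod C K N} {lam : I → ℤ} {v : M} {l : N}
    (hv : IsHigh V lam v) (hl : IsLow V' (-lam) l) {ev : N →ₗ[K] M →ₗ[K] K} (hev : IsPair V' V ev)
    (h1 : ev l v = 1) (nd : ∀ x, (∀ y, ev y x = 0) → x = 0)
    {ι : Type*} [Fintype ι] (b : Module.Basis ι K M) {b' : ι → N}
    (hb2 : ∀ y, y = ∑ j, ev y (b j) • b' j) {t : M ⊗[K] N} (ht : t ∈ (V.tensor V').Inv) :
    ∃ c : K, t = c • ∑ j, b j ⊗ₜ[K] b' j := by
  have hK : ∀ i z, Phi ev t z = V.Kp i (Phi ev t (V.Km i z)) := by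
    intro i z
    rw [← Phi_Kp hev, (ht i).2.2]
  have hE : ∀ i z, Phi ev t (V.E i z) = V.E i (Phi ev t z) := by
    intro i z
    have h := Phi_E hev i t z
    rw [(ht i).1, map_zero, LinearMap.zero_apply, ← hK] at h
    exact (sub_eq_zero.1 h.symm).symm
  have hF : ∀ i z, Phi ev t (V.F i z) = V.F i (Phi ev t z) := by
    intro i z
    have h := Phi_F hev i t (V.Km i z)
    rw [(ht i).2.1, map_zero, LinearMap.zero_apply, V.kpkm] at h
    exact (sub_eq_zero.1 h.symm).symm
  obtain ⟨c, hc⟩ : ∃ c, c = ev l (Phi ev t v) := ⟨_, rfl⟩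
  have hu : Phi ev t v = c • v := by
    rw [← sub_eq_zero]
    apply nd
    intro y
    have hEu : ∀ i, V.E i (Phi ev t v - c • v) = 0 := by
      intro i
      rw [map_sub, map_smul, ← hE, hv.E i, map_zero, smul_zero, sub_zero]
    have hy : y ∈ Submodule.span K (Set.range fun w => V'.Ew w l) := by
      rw [hl.span]
      exact Submodule.mem_top
    induction hy using Submodule.span_induction with
    | mem y hy =>
      obtain ⟨w, rfl⟩ := hy
      cases w with
      | nil =>
        show ev l (Phi ev t v - c • v) = 0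
        rw [map_sub, map_smul, h1, hc, smul_eq_mul, mul_one, sub_self]
      | cons i w =>
        show ev (V'.E i (V'.Ew w l)) (Phi ev t v - c • v) = 0
        rw [ev_E hev, hEu, map_zero, map_zero, neg_zero]
    | zero => rw [map_zero, LinearMap.zero_apply]
    | add x y _ _ hx hy => rw [map_add, LinearMap.add_apply, hx, hy, add_zero]
    | smul r x _ hx => rw [map_smul, LinearMap.smul_apply, hx, smul_zero]
  have hall : ∀ z, Phi ev t z = c • z := by
    intro z
    have hz : z ∈ Submodule.span K (Set.range fun w => V.Fw w v) := by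
      rw [hv.span]
      exact Submodule.mem_top
    induction hz using Submodule.span_induction with
    | mem y hy =>
      obtain ⟨w, rfl⟩ := hy
      show Phi ev t (V.Fw w v) = c • V.Fw w v
      induction w with
      | nil => exact hu
      | cons i w ih =>
        rw [Mod.Fw_cons, LinearMap.comp_apply, hF, ih, map_smul]
    | zero => rw [map_zero, smul_zero]
    | add x y _ _ hx hy => rw [map_add, hx, hy, smul_add]
    | smul r x _ hx => rw [map_smul, hx, smul_comm]
  refine ⟨c, ?_⟩
  have hrec : ∀ s : M ⊗[K] N, s = ∑ j, Phi ev s (b j) ⊗ₜ[K] b' j := by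
    intro s
    induction s using TensorProduct.induction_on with
    | zero => simp
    | tmul x y =>
      conv_lhs => rw [hb2 y]
      rw [TensorProduct.tmul_sum]
      refine Finset.sum_congr rfl fun j _ => ?_
      rw [Phi_tmul, TensorProduct.smul_tmul]
    | add a b ha hb =>
      conv_lhs => rw [ha, hb]
      rw [← Finset.sum_add_distrib]
      refine Finset.sum_congr rfl fun j _ => ?_
      rw [map_add, LinearMap.add_apply, TensorProduct.add_tmul]
  rw [hrec t, Finset.smul_sum]
  refine Finset.sum_congr rfl fun j _ => ?_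
  rw [hall, TensorProduct.smul_tmul']

theorem isWt_of_high {V : Mod C K M} {lam : I → ℤ} {v : M} (hv : IsHigh V lam v) : V.IsWt := by
  rw [Mod.IsWt, eq_top_iff, ← hv.span, Submodule.span_le]
  rintro _ ⟨w, rfl⟩
  exact Submodule.mem_iSup_of_mem _ (Fw_wt V hv.wt w)

/-- The operator acting by `q ^ (2 ∑ d_j k_j)` on the weight space `lam - ∑ k_j α_j`. -/
theorem exists_Z {V : Mod C K M} {lam : I → ℤ} {v : M} (hv : IsHigh V lam v) :
    ∃ Z : M →ₗ[K] M, ∀ k : I → ℤ, ∀ x ∈ V.wt (lam - C.rt k),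
      Z x = qq K ^ (2 * ∑ j, (C.d j : ℤ) * k j) • x := by
  classical
  obtain ⟨Z, hZ⟩ := exists_wtOp V (isWt_of_high hv)
    (fun m => if h : ∃ k, m = lam - C.rt k then
      qq K ^ (2 * ∑ j, (C.d j : ℤ) * h.choose j) else 0)
  refine ⟨Z, fun k x hx => ?_⟩
  rw [hZ _ x hx]
  have h : ∃ k', lam - C.rt k = lam - C.rt k' := ⟨k, rfl⟩
  rw [dif_pos h]
  have h2 : h.choose = k := by
    have h3 := h.choose_spec
    exact (rt_inj (sub_right_injective h3)).symm
  rw [h2]

/-- `θ(x ⊗ y) = ev(y, Z x)`. -/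
def theta (ev : N →ₗ[K] M →ₗ[K] K) (Z : M →ₗ[K] M) : M ⊗[K] N →ₗ[K] K :=
  TensorProduct.lift (ev.flip ∘ₗ Z)

@[simp] theorem theta_tmul (ev : N →ₗ[K] M →ₗ[K] K) (Z : M →ₗ[K] M) (x : M) (y : N) :
    theta ev Z (x ⊗ₜ y) = ev y (Z x) := by
  simp [theta]

theorem qz_add (a b : ℤ) : qq K ^ (a + b) = qq K ^ a * qq K ^ b := zpow_add₀ HasQ.q_ne a b

theorem theta_E {V : Mod C K M} {V' : Mod C K N} {lam : I → ℤ} {v : M}
    (hv : IsHigh V lam v) {ev : N →ₗ[K] M →ₗ[K] K} (hev : IsPair V' V ev) {Z : M →ₗ[K] M}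
    (hZ : ∀ k : I → ℤ, ∀ x ∈ V.wt (lam - C.rt k), Z x = qq K ^ (2 * ∑ j, (C.d j : ℤ) * k j) • x)
    (i : I) (t : M ⊗[K] N) : theta ev Z ((V.tensor V').E i t) = 0 := by
  induction t using TensorProduct.induction_on with
  | zero => simp
  | add a b ha hb => rw [map_add, map_add, ha, hb, add_zero]
  | tmul x y =>
    have hx : x ∈ Submodule.span K (Set.range fun w => V.Fw w v) := by
      rw [hv.span]
      exact Submodule.mem_top
    induction hx using Submodule.span_induction with
    | zero => simp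
    | add a b _ _ ha hb => rw [TensorProduct.add_tmul, map_add, map_add, ha, hb, add_zero]
    | smul r a _ ha => rw [← TensorProduct.smul_tmul', map_smul, map_smul, ha, smul_zero]
    | mem x hx =>
      obtain ⟨w, rfl⟩ := hx
      show theta ev Z ((V.tensor V').E i (V.Fw w v ⊗ₜ[K] y)) = 0
      obtain ⟨x, hxe⟩ : ∃ x, x = V.Fw w v := ⟨_, rfl⟩
      obtain ⟨k, hk⟩ : ∃ k, k = kw (I := I) w := ⟨_, rfl⟩
      have hxw : x ∈ V.wt (lam - C.rt k) := by
        rw [hxe, hk]
        exact Fw_wt V hv.wt w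
      rw [← hxe]
      have hE1 : V.E i x ∈ V.wt (lam - C.rt (k - Pi.single i 1)) := by
        have h := E_wt V i hxw
        have h2 : (fun j => (lam - C.rt k) j + C.a j i) = lam - C.rt (k - Pi.single i 1) := by
          rw [rt_sub_single]
          funext j
          show lam j - C.rt k j + C.a j i = lam j - (C.rt k j - C.a j i)
          ring
        rwa [h2] at h
      rw [tE, map_add, theta_tmul, theta_tmul, hZ _ _ hE1, Mod.mem_wt.1 hxw i, map_smul, map_smul,
        map_smul, hZ _ _ hxw, map_smul, ev_E hev, Km_wt V hE1, map_smul]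
      have s1 : ∑ j, (C.d j : ℤ) * (k - Pi.single i 1 : I → ℤ) j = ∑ j, (C.d j : ℤ) * k j - C.d i := by
        simp only [Pi.sub_apply, mul_sub, Finset.sum_sub_distrib]
        congr 1
        rw [Finset.sum_eq_single i]
        · simp
        · intro b _ hb
          rw [Pi.single_eq_of_ne hb, mul_zero]
        · intro h
          exact absurd (Finset.mem_univ i) h
      have s2 : (lam - C.rt (k - Pi.single i 1)) i = (lam - C.rt k) i + 2 := by
        rw [rt_sub_single]
        show lam i - (C.rt k i - C.a i i) = lam i - C.rt k i + 2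
        rw [C.diag]
        ring
      rw [s1, s2]
      simp only [smul_eq_mul]
      rw [mul_neg, mul_neg, ← mul_assoc, ← mul_assoc, ← qz_add, ← qz_add, ← sub_eq_add_neg,
        ← sub_mul, mul_eq_zero]
      left
      rw [sub_eq_zero]
      congr 1
      ring

theorem theta_F {V : Mod C K M} {V' : Mod C K N} {lam : I → ℤ} {v : M}
    (hv : IsHigh V lam v) {ev : N →ₗ[K] M →ₗ[K] K} (hev : IsPair V' V ev) {Z : M →ₗ[K] M}
    (hZ : ∀ k : I → ℤ, ∀ x ∈ V.wt (lam - C.rt k), Z x = qq K ^ (2 * ∑ j, (C.d j : ℤ) * k j) • x)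
    (i : I) (t : M ⊗[K] N) : theta ev Z ((V.tensor V').F i t) = 0 := by
  induction t using TensorProduct.induction_on with
  | zero => simp
  | add a b ha hb => rw [map_add, map_add, ha, hb, add_zero]
  | tmul x y =>
    have hx : x ∈ Submodule.span K (Set.range fun w => V.Fw w v) := by
      rw [hv.span]
      exact Submodule.mem_top
    induction hx using Submodule.span_induction with
    | zero => simp
    | add a b _ _ ha hb => rw [TensorProduct.add_tmul, map_add, map_add, ha, hb, add_zero]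
    | smul r a _ ha => rw [← TensorProduct.smul_tmul', map_smul, map_smul, ha, smul_zero]
    | mem x hx =>
      obtain ⟨w, rfl⟩ := hx
      show theta ev Z ((V.tensor V').F i (V.Fw w v ⊗ₜ[K] y)) = 0
      obtain ⟨x, hxe⟩ : ∃ x, x = V.Fw w v := ⟨_, rfl⟩
      obtain ⟨k, hk⟩ : ∃ k, k = kw (I := I) w := ⟨_, rfl⟩
      have hxw : x ∈ V.wt (lam - C.rt k) := by
        rw [hxe, hk]
        exact Fw_wt V hv.wt w
      rw [← hxe]
      have hF1 : V.F i x ∈ V.wt (lam - C.rt (k + Pi.single i 1)) := by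
        have h := F_wt V i hxw
        have h2 : (fun j => (lam - C.rt k) j - C.a j i) = lam - C.rt (k + Pi.single i 1) := by
          rw [rt_add_single]
          funext j
          show lam j - C.rt k j - C.a j i = lam j - (C.rt k j + C.a j i)
          ring
        rwa [h2] at h
      rw [tF, map_add, theta_tmul, theta_tmul, hZ _ _ hF1, hZ _ _ hxw, map_smul, ev_Km hev,
        Mod.mem_wt.1 hF1 i, map_smul, map_smul, ev_F hev, Mod.mem_wt.1 hxw i, map_smul, map_smul]
      have s1 : ∑ j, (C.d j : ℤ) * (k + Pi.single i 1 : I → ℤ) j = ∑ j, (C.d j : ℤ) * k j + C.d i := by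
        simp only [Pi.add_apply, mul_add, Finset.sum_add_distrib]
        congr 1
        rw [Finset.sum_eq_single i]
        · simp
        · intro b _ hb
          rw [Pi.single_eq_of_ne hb, mul_zero]
        · intro h
          exact absurd (Finset.mem_univ i) h
      have s2 : (lam - C.rt (k + Pi.single i 1)) i = (lam - C.rt k) i - 2 := by
        rw [rt_add_single]
        show lam i - (C.rt k i + C.a i i) = lam i - C.rt k i - 2
        rw [C.diag]
        ring
      rw [s1, s2]
      simp only [smul_eq_mul]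
      rw [mul_neg, ← mul_assoc, ← mul_assoc, ← qz_add, ← qz_add, ← sub_eq_add_neg,
        ← sub_mul, mul_eq_zero]
      left
      rw [sub_eq_zero]
      congr 1
      ring

/-- The dual basis is in the lattice generated by the lowest weight vector. -/
theorem dual_mem {V : Mod C K M} {V' : Mod C K N} {lam : I → ℤ} {v : M} {l : N}
    (hv : IsHigh V lam v) (hl : IsLow V' (-lam) l) {ev : N →ₗ[K] M →ₗ[K] K} (hev : IsPair V' V ev)
    (h1 : ev l v = 1) (nd : ∀ x, (∀ y, ev y x = 0) → x = 0)
    {ι : Type*} [Fintype ι] (b : Module.Basis ι K M)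
    (hb : Submodule.span (RR K) (Set.range b) = latF V v) (P : (V.tensor V').Proj) {b' : ι → N}
    (hb1 : ∀ j x, ev (b' j) x = b.repr x j) (hb2 : ∀ y, y = ∑ j, ev y (b j) • b' j) (j : ι) :
    b' j ∈ latE V' l := by
  classical
  obtain ⟨Z, hZ⟩ := exists_Z hv
  -- coordinates of elements of the lattice
  have hcoord : ∀ i, ∀ x ∈ latF V v, b.repr x i ∈ RR K := by
    intro i x hx
    rw [← hb] at hx
    have h := fun_span (b.coord i) (S := Set.range b) ?_ hx
    · rwa [Module.Basis.coord_apply] at h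
    · rintro _ ⟨k, rfl⟩
      rw [Module.Basis.coord_apply, Module.Basis.repr_self, Finsupp.single_apply]
      split_ifs
      · exact (RR K).one_mem
      · exact (RR K).zero_mem
  have hbm : ∀ i, b i ∈ latF V v := fun i => by
    rw [← hb]
    exact Submodule.subset_span ⟨i, rfl⟩
  have hZL : ∀ x ∈ latF V v, Z x ∈ latF V v := by
    intro x hx
    refine map_span Z ?_ hx
    rintro s ⟨w, rfl⟩
    show Z (V.Fw w v) ∈ latF V v
    rw [hZ _ _ (Fw_wt V hv.wt w)]
    exact smul_memR (qz_mem _) (Submodule.subset_span ⟨w, rfl⟩)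
  obtain ⟨f0, hf0⟩ : ∃ f0, f0 = ∑ j, b j ⊗ₜ[K] b' j := ⟨_, rfl⟩
  obtain ⟨c, hc⟩ := inv_eq hv hl hev h1 nd b hb2 (P.mem (v ⊗ₜ l))
  rw [← hf0] at hc
  have hth : theta ev Z f0 ∈ RR K := by
    rw [hf0, map_sum]
    refine Subring.sum_mem _ fun i _ => ?_
    rw [theta_tmul, hb1]
    exact hcoord i _ (hZL _ (hbm i))
  have hcth : c * theta ev Z f0 = 1 := by
    have h := P.fac (theta ev Z) (theta_E hv hev hZ) (theta_F hv hev hZ) (v ⊗ₜ l)
    rw [hc, map_smul, smul_eq_mul, theta_tmul] at h
    rw [h]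
    have h2 : v ∈ V.wt (lam - C.rt 0) := by
      rw [rt_zero, sub_zero]
      exact hv.wt
    rw [hZ 0 v h2, map_smul, h1]
    simp
  have hf0m : f0 ∈ lt (latF V v) (latE V' l) := by
    have h2 : f0 = theta ev Z f0 • P.p (v ⊗ₜ l) := by
      rw [hc, smul_smul, mul_comm, hcth, one_smul]
    rw [h2]
    refine smul_memR hth (P.int _ (lt_stab (latF_stab V hv) (latE_stab V' hl)) _ ?_)
    exact tmul_mem_lt (Submodule.subset_span ⟨[], rfl⟩) (Submodule.subset_span ⟨[], rfl⟩)
  -- the coordinate map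
  obtain ⟨G, hG⟩ : ∃ G : M ⊗[K] N →ₗ[K] N, ∀ x y, G (x ⊗ₜ y) = b.repr x j • y := by
    refine ⟨TensorProduct.lift (LinearMap.lsmul K N ∘ₗ b.coord j), ?_⟩
    intro x y
    rw [TensorProduct.lift.tmul]
    rfl
  have h3 : G f0 = b' j := by
    rw [hf0, map_sum, Finset.sum_eq_single j]
    · rw [hG, Module.Basis.repr_self, Finsupp.single_eq_same, one_smul]
    · intro i _ hi
      rw [hG, Module.Basis.repr_self, Finsupp.single_eq_of_ne hi.symm, zero_smul]
    · intro h
      exact absurd (Finset.mem_univ j) h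
  rw [← h3]
  refine map_span G ?_ hf0m
  rintro s ⟨x, hx, y, hy, rfl⟩
  rw [hG]
  exact smul_memR (hcoord j x hx) hy

theorem perfect_left (V : Mod C K M) (V' : Mod C K N) {lam : I → ℤ} {v : M} {l : N}
    (hv : IsHigh V lam v) (hl : IsLow V' (-lam) l) {ev : N →ₗ[K] M →ₗ[K] K} (hev : IsPair V' V ev)
    (h1 : ev l v = 1) (nd : ∀ x, (∀ y, ev y x = 0) → x = 0) (nd' : ∀ y, (∀ x, ev y x = 0) → y = 0)
    {ι : Type*} [Fintype ι] (b : Module.Basis ι K M)
    (hb : Submodule.span (RR K) (Set.range b) = latF V v) (P : (V.tensor V').Proj) (y : N) :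
    (∀ x ∈ latF V v, ev y x ∈ RR K) ↔ y ∈ latE V' l := by
  obtain ⟨b', hb1, hb2⟩ := exists_dual nd nd' b
  constructor
  · intro h
    rw [hb2 y]
    refine Submodule.sum_mem _ fun j _ => ?_
    refine smul_memR (h _ ?_) (dual_mem hv hl hev h1 nd b hb P hb1 hb2 j)
    rw [← hb]
    exact Submodule.subset_span ⟨j, rfl⟩
  · intro hy x hx
    exact pair_mem hv hl hev h1 hx hy

theorem perfect_right (V : Mod C K M) (V' : Mod C K N) {lam : I → ℤ} {v : M} {l : N}
    (hv : IsHigh V lam v) (hl : IsLow V' (-lam) l) {ev : N →ₗ[K] M →ₗ[K] K} (hev : IsPair V' V ev)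
    (h1 : ev l v = 1) (nd : ∀ x, (∀ y, ev y x = 0) → x = 0) (nd' : ∀ y, (∀ x, ev y x = 0) → y = 0)
    {ι : Type*} [Fintype ι] (b : Module.Basis ι K M)
    (hb : Submodule.span (RR K) (Set.range b) = latF V v) (P : (V.tensor V').Proj) (x : M) :
    (∀ y ∈ latE V' l, ev y x ∈ RR K) ↔ x ∈ latF V v := by
  obtain ⟨b', hb1, hb2⟩ := exists_dual nd nd' b
  constructor
  · intro h
    rw [← b.sum_repr x]
    refine Submodule.sum_mem _ fun j _ => ?_
    refine smul_memR ?_ ?_
    · rw [← hb1]
      exact h _ (dual_mem hv hl hev h1 nd b hb P hb1 hb2 j)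
    · rw [← hb]
      exact Submodule.subset_span ⟨j, rfl⟩
  · intro hx y hy
    exact pair_mem hv hl hev h1 hx hy

end Pool.Agent.H387.QR.T08
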