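import Mathlib
import Pool.Agent.H676.SC.Stm

/-! Relabelings of a wiring and the index of a stabiliser. -/

set_option autoImplicit false

namespace Pool.Agent.H553.SCIDX

open Pool.Agent.H676.SC

variable {V D L : Type}

/-- composition of all functions with the relabeling of graphs -/
noncomputable def TT (σ : Equiv.Perm V)
    (p : Option (SimpleGraph V → Bool) × Multiset (L × (SimpleGraph V → D))) :
    Option (SimpleGraph V → Bool) × Multiset (L × (SimpleGraph V → D)) :=
  (p.1.map fun f G => f (G.comap σ), p.2.map fun e => (e.1, fun G => e.2 (G.comap σ)))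

lemma comap_mul (G : SimpleGraph V) (σ ρ : Equiv.Perm V) :
    G.comap (σ * ρ : Equiv.Perm V) = (G.comap σ).comap ρ := rfl

lemma wiring_mul (C : Circuit V D L) (g : C.Gate) (σ ρ : Equiv.Perm V) :
    C.wiring g (σ * ρ) = TT σ (C.wiring g ρ) := by
  unfold Circuit.wiring TT
  refine Prod.ext ?_ ?_
  · show Option.map _ _ = Option.map _ (Option.map _ _)
    rw [Option.map_map]
    rfl
  · show Multiset.map _ _ = Multiset.map _ (Multiset.map _ _)
    rw [Multiset.map_map]
    rfl

/-- the stabiliser -/
noncomputable def HH (C : Circuit V D L) (g : C.Gate) : Subgroup (Equiv.Perm V) where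
  carrier := {ρ | C.wiring g ρ = C.wiring g 1}
  mul_mem' := by
    intro a b ha hb
    show C.wiring g (a * b) = C.wiring g 1
    have ha' : C.wiring g a = C.wiring g 1 := ha
    have hb' : C.wiring g b = C.wiring g 1 := hb
    rw [wiring_mul, hb', ← wiring_mul, mul_one, ha']
  one_mem' := rfl
  inv_mem' := by
    intro a ha
    show C.wiring g a⁻¹ = C.wiring g 1
    have ha' : C.wiring g a = C.wiring g 1 := ha
    have h1 : C.wiring g a⁻¹ = TT a⁻¹ (C.wiring g 1) := by rw [← wiring_mul, mul_one]
    rw [h1, ← ha', ← wiring_mul, inv_mul_cancel]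
    exact ha'.symm

lemma mem_HH (C : Circuit V D L) (g : C.Gate) (ρ : Equiv.Perm V) :
    ρ ∈ HH C g ↔ C.wiring g ρ = C.wiring g 1 := Iff.rfl

lemma wiring_eq_iff (C : Circuit V D L) (g : C.Gate) (σ τ : Equiv.Perm V) :
    C.wiring g σ = C.wiring g τ ↔ σ⁻¹ * τ ∈ HH C g := by
  rw [mem_HH]
  constructor
  · intro h
    rw [wiring_mul, ← h, ← wiring_mul, inv_mul_cancel]
  · intro h
    have h1 : τ = σ * (σ⁻¹ * τ) := by group
    rw [h1, wiring_mul, h, ← wiring_mul, mul_one]

theorem t_IDX : S_IDX := by
  intro V D L _ C g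
  refine ⟨HH C g, ?_, fun ρ hρ => hρ⟩
  unfold Circuit.numWirings Subgroup.index
  have key : ∀ a b : Equiv.Perm V, (QuotientGroup.leftRel (HH C g)) a b →
      (⟨C.wiring g a, Set.mem_range_self a⟩ : Set.range (C.wiring g)) =
        ⟨C.wiring g b, Set.mem_range_self b⟩ := by
    intro a b hab
    rw [QuotientGroup.leftRel_apply] at hab
    exact Subtype.ext ((wiring_eq_iff C g a b).2 hab)
  refine Nat.card_congr (Equiv.ofBijective
    (Quotient.lift (fun σ => (⟨C.wiring g σ, Set.mem_range_self σ⟩ : Set.range (C.wiring g)))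
      key) ⟨?_, ?_⟩)
  · intro a b
    induction a using Quotient.inductionOn with
    | h a =>
      induction b using Quotient.inductionOn with
      | h b =>
        intro h
        apply Quotient.sound
        show QuotientGroup.leftRel (HH C g) a b
        rw [QuotientGroup.leftRel_apply]
        exact (wiring_eq_iff C g a b).1 (congrArg Subtype.val h)
  · rintro ⟨_, σ, rfl⟩
    exact ⟨Quotient.mk _ σ, rfl⟩

end Pool.Agent.H553.SCIDX
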