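import Pool.Agent.H683.SC.Stm

/-!
# `S_POST` of helper683: evaluation of the coefficient table, signs
-/

set_option autoImplicit false

namespace Pool.Agent.NPC.H553POST

open Pool.Agent.H683.SC

theorem evq_eq (q n : ℕ) : ∀ f : ℕ → ℕ, evq ((List.range n).map f) q =
    ∑ j ∈ Finset.range n, f j * q ^ j := by
  induction n with
  | zero => intro f; rfl
  | succ n ih =>
    intro f
    rw [List.range_succ_eq_map, List.map_cons, List.map_map, Finset.sum_range_succ']
    have h1 : evq (f 0 :: (List.range n).map (f ∘ Nat.succ)) q =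
        f 0 + q * evq ((List.range n).map (f ∘ Nat.succ)) q := rfl
    rw [h1, ih (f ∘ Nat.succ), Finset.mul_sum, pow_zero, mul_one, add_comm]
    congr 1
    refine Finset.sum_congr rfl fun j _ => ?_
    simp only [Function.comp_apply, Nat.succ_eq_add_one]
    ring

theorem evs_eq (R : ℕ → List ℕ) (q r : ℕ) : ∀ N : ℕ, evs ((List.range N).map R) q r =
    ∑ i ∈ Finset.range N, if i % 2 = r then evq (R i) q else 0 := by
  intro N
  induction N with
  | zero => rfl
  | succ N ih =>
    rw [Finset.sum_range_succ, ← ih]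
    unfold evs
    rw [List.range_succ, List.map_append, List.zipIdx_append, List.filter_append, List.map_append,
      List.sum_append]
    congr 1
    simp only [List.map_cons, List.map_nil, List.length_map, List.length_range, List.zipIdx_cons,
      List.zipIdx_nil, zero_add]
    by_cases h : N % 2 = r
    · simp [h]
    · simp [h]

theorem diff_eq (M : List (List Bool)) (q : ℕ) :
    ((evs (qtab M) q 0 : ℕ) : ℤ) - ((evs (qtab M) q 1 : ℕ) : ℤ) = Qv M q := by
  unfold qtab Qv
  rw [evs_eq, evs_eq, Nat.cast_sum, Nat.cast_sum, ← Finset.sum_sub_distrib]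
  refine Finset.sum_congr rfl fun i _ => ?_
  rw [evq_eq]
  have h2 : ∑ j ∈ Finset.range (M.length + 1), (-1 : ℤ) ^ i * (q : ℤ) ^ j * (qco M i j : ℤ) =
      (-1 : ℤ) ^ i * ((∑ j ∈ Finset.range (M.length + 1), qco M i j * q ^ j : ℕ) : ℤ) := by
    rw [Nat.cast_sum, Finset.mul_sum]
    refine Finset.sum_congr rfl fun j _ => ?_
    push_cast
    ring
  rw [h2]
  rcases Nat.mod_two_eq_zero_or_one i with h | h
  · have hi : (-1 : ℤ) ^ i = 1 := (Nat.even_iff.2 h).neg_one_pow
    rw [hi, h]
    simp
  · have hi : (-1 : ℤ) ^ i = -1 := (Nat.odd_iff.2 h).neg_one_pow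
    rw [hi, h]
    simp

theorem POST : S_POST := by
  intro M q m hq
  have hd := diff_eq M q
  obtain ⟨w, rfl⟩ : ∃ w, q = w + 1 := ⟨q - 1, by omega⟩
  unfold post
  rw [Bool.not_eq_true', decide_eq_false_iff_not]
  have hw : (w + 1 - 1) = w := by omega
  rw [hw, ← hd]
  have h1 : (1 : ℤ) - ((w + 1 : ℕ) : ℤ) = -(w : ℤ) := by push_cast; ring
  rw [h1]
  rcases Nat.mod_two_eq_zero_or_one m with h | h
  · rw [(Nat.even_iff.2 h).neg_pow, h]
    simp only [zero_ne_one, if_false, if_true, add_zero]
    apply not_congr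
    constructor
    · intro h2
      have h3 : ((evs (qtab M) (w + 1) 0 : ℕ) : ℤ) =
          ((evs (qtab M) (w + 1) 1 + w ^ m : ℕ) : ℤ) := congrArg _ h2
      push_cast at h3
      linarith
    · intro h2
      have h3 : ((evs (qtab M) (w + 1) 0 : ℕ) : ℤ) =
          ((evs (qtab M) (w + 1) 1 + w ^ m : ℕ) : ℤ) := by
        push_cast
        linarith
      exact_mod_cast h3
  · rw [(Nat.odd_iff.2 h).neg_pow, h]
    simp only [one_ne_zero, if_false, if_true, add_zero]
    apply not_congr
    constructor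
    · intro h2
      have h3 : ((evs (qtab M) (w + 1) 0 + w ^ m : ℕ) : ℤ) =
          ((evs (qtab M) (w + 1) 1 : ℕ) : ℤ) := congrArg _ h2
      push_cast at h3
      linarith
    · intro h2
      have h3 : ((evs (qtab M) (w + 1) 0 + w ^ m : ℕ) : ℤ) =
          ((evs (qtab M) (w + 1) 1 : ℕ) : ℤ) := by
        push_cast
        linarith
      exact_mod_cast h3

end Pool.Agent.NPC.H553POST
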