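import Mathlib
import Pool.Agent.H770.GS.TF

/-! # Project TF: integrability of the integrand of the derivative -/

set_option autoImplicit false

open MeasureTheory Set intervalIntegral Filter Topology

namespace Pool.Agent.H553.TF

open Pool.Agent.H770.GS

lemma abs_sinc_le {x : ℝ} (hx : 0 < x) : |Real.sinc x| ≤ 1 / x := by
  rw [Real.sinc_of_ne_zero hx.ne', abs_div, abs_of_pos hx]
  exact div_le_div_of_nonneg_right (Real.abs_sin_le_one x) hx.le

lemma int_inv_sq {c : ℝ} (hc : 0 < c) : IntegrableOn (fun x : ℝ => 1 / x ^ 2) (Ioi c) := by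
  have h1 := integrableOn_Ioi_rpow_of_lt (a := -2) (by norm_num) hc
  refine h1.congr_fun (fun x hx => ?_) measurableSet_Ioi
  have hx0 : 0 < x := hc.trans hx
  simp only
  rw [Real.rpow_neg hx0.le, one_div]
  norm_num

theorem t_TF3 : S_TF3 := by
  intro h2 ε b k hε hb hk
  obtain ⟨hz, -, hf1, hf2, -, hder, -⟩ := h2 ε hε
  have hcont : Continuous (cf ε) :=
    continuous_iff_continuousAt.2 fun x => (hder x).continuousAt
  have hcb : Continuous (fun τ : ℝ => cf ε (b * τ)) := hcont.comp (continuous_const.mul continuous_id)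
  have hsb : Continuous (fun τ : ℝ => Real.sinc (b * τ)) :=
    Real.continuous_sinc.comp (continuous_const.mul continuous_id)
  have hII : Continuous (II ε k b) := by
    unfold II
    exact (((continuous_pow 2).mul hcont).mul (hcb.pow _)).mul
      ((hcont.mul hsb).sub (hcb.mul Real.continuous_sinc))
  constructor
  · have hsplit : Ioi (0 : ℝ) = Ioc 0 1 ∪ Ioi 1 := (Ioc_union_Ioi_eq_Ioi zero_le_one).symm
    rw [hsplit]
    apply IntegrableOn.union
    · exact (hII.continuousOn.integrableOn_compact isCompact_Icc).mono_set Ioc_subset_Icc_self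
    · have hg : IntegrableOn (fun x : ℝ => (2 / (zt ε ^ 3 * b ^ 3)) * (1 / x ^ 2)) (Ioi 1) :=
        (int_inv_sq zero_lt_one).const_mul _
      refine Integrable.mono' hg hII.aestronglyMeasurable ?_
      refine (ae_restrict_iff' measurableSet_Ioi).2 (Eventually.of_forall fun τ hτ => ?_)
      have hτ0 : (0 : ℝ) < τ := zero_lt_one.trans hτ
      have hbτ : 0 < b * τ := mul_pos hb hτ0
      have a1 := hf1 τ hτ0
      have a2 := hf1 (b * τ) hbτ
      have a3 := hf2 τ
      have a4 := hf2 (b * τ)
      have s1 := abs_sinc_le hτ0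
      have s2 := abs_sinc_le hbτ
      rw [Real.norm_eq_abs]
      unfold II
      rw [abs_mul, abs_mul, abs_mul, abs_pow, abs_pow, abs_of_pos hτ0]
      have e1 : |cf ε (b * τ)| ^ (k - 1) ≤ (1 / (zt ε * (b * τ))) ^ 2 := by
        calc |cf ε (b * τ)| ^ (k - 1) ≤ |cf ε (b * τ)| ^ 2 :=
              pow_le_pow_of_le_one (abs_nonneg _) a4 (by omega)
          _ ≤ _ := pow_le_pow_left₀ (abs_nonneg _) a2 2
      have e2 : |cf ε τ * Real.sinc (b * τ) - cf ε (b * τ) * Real.sinc τ| ≤
          1 / (zt ε * τ) * (1 / (b * τ)) + 1 / (zt ε * (b * τ)) * (1 / τ) := by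
        refine (abs_sub _ _).trans ?_
        rw [abs_mul, abs_mul]
        apply add_le_add
        · exact mul_le_mul a1 s2 (abs_nonneg _) (by positivity)
        · exact mul_le_mul a2 s1 (abs_nonneg _) (by positivity)
      calc τ ^ 2 * |cf ε τ| * |cf ε (b * τ)| ^ (k - 1) *
            |cf ε τ * Real.sinc (b * τ) - cf ε (b * τ) * Real.sinc τ|
          ≤ τ ^ 2 * 1 * (1 / (zt ε * (b * τ))) ^ 2 *
            (1 / (zt ε * τ) * (1 / (b * τ)) + 1 / (zt ε * (b * τ)) * (1 / τ)) := by
            apply mul_le_mul _ e2 (abs_nonneg _) (by positivity)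
            apply mul_le_mul _ e1 (by positivity) (by positivity)
            exact mul_le_mul_of_nonneg_left a3 (by positivity)
        _ = (2 / (zt ε ^ 3 * b ^ 3)) * (1 / τ ^ 2) := by
            field_simp
            norm_num
  · intro m
    have hg : IntegrableOn (fun x : ℝ => 1 / x ^ 2) (Ioi (12 / 5)) := int_inv_sq (by norm_num)
    have hmeas : AEStronglyMeasurable (fun x => |cf ε x| ^ m / x ^ 2)
        (volume.restrict (Ioi (12 / 5 : ℝ))) := by
      apply Measurable.aestronglyMeasurable
      exact ((hcont.abs.pow m).measurable).div (measurable_id.pow_const 2)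
    refine Integrable.mono' hg hmeas ?_
    refine (ae_restrict_iff' measurableSet_Ioi).2 (Eventually.of_forall fun x hx => ?_)
    rw [Real.norm_eq_abs, abs_of_nonneg (by positivity)]
    apply div_le_div_of_nonneg_right _ (by positivity)
    exact pow_le_one₀ (abs_nonneg _) (hf2 x)

end Pool.Agent.H553.TF
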